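import Mathlib
import Pool.Agent.Helper467.FP.Defs
import Pool.Agent.Helper467.FP.P_n2_mul_le

/-!
In a C*-algebra with a faithful tracial state the operator norm is determined by the 2-norm.
-/

set_option autoImplicit false

open scoped ComplexOrder Topology InnerProductSpace
open Filter Pool.Agent.H467F

namespace Q199.BF

variable {M : Type} [CStarAlgebra M] {τ : M →ₗ[ℂ] ℂ}

theorem norm_le_of_n2 (h : TW τ) (a : M) (r : ℝ) (hr : 0 ≤ r)
    (hb : ∀ y, n2 τ (a * y) ≤ r * n2 τ y) : ‖a‖ ≤ r := by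
  let _ := CStarAlgebra.spectralOrder M
  let _ := CStarAlgebra.spectralOrderedRing M
  set x : M := star a * a with hx
  have hxn : 0 ≤ x := star_mul_self_nonneg a
  have hxsa : IsSelfAdjoint x := IsSelfAdjoint.of_nonneg hxn
  let f : ℝ → ℝ := fun t => max (t - r ^ 2) 0
  let k : ℝ → ℝ := fun t => f t * Real.sqrt (f t)
  have hf : Continuous f := by fun_prop
  have hk : Continuous k := by fun_prop
  set b := cfc f x with hbdef
  have hbs : star b = b := (cfc_predicate f x : IsSelfAdjoint (cfc f x))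
  have hks : star (cfc k x) = cfc k x := (cfc_predicate k x : IsSelfAdjoint (cfc k x))
  have e1 : b * x * b = (r ^ 2 : ℝ) • (b * b) + cfc k x * cfc k x := by
    have h1 : cfc (fun t : ℝ => f t * t * f t) x = b * x * b := by
      rw [cfc_mul (fun t : ℝ => f t * t) f x (hf.mul continuous_id).continuousOn hf.continuousOn,
        cfc_mul f (fun t : ℝ => t) x hf.continuousOn continuous_id.continuousOn, cfc_id' ℝ x]
    have h2 : cfc (fun t : ℝ => (r ^ 2) • (f t * f t) + k t * k t) x =
        (r ^ 2 : ℝ) • (b * b) + cfc k x * cfc k x := by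
      rw [cfc_add (a := x) (fun t : ℝ => (r ^ 2) • (f t * f t)) (fun t : ℝ => k t * k t)
        (by fun_prop) (hk.mul hk).continuousOn,
        cfc_smul (r ^ 2) (fun t : ℝ => f t * f t) x (hf.mul hf).continuousOn,
        cfc_mul f f x hf.continuousOn hf.continuousOn,
        cfc_mul k k x hk.continuousOn hk.continuousOn]
    rw [← h1, ← h2]
    congr 1
    ext t
    simp only [k, smul_eq_mul]
    have h3 : Real.sqrt (f t) * Real.sqrt (f t) = f t := Real.mul_self_sqrt (le_max_right _ _)
    have h4 : f t * Real.sqrt (f t) * (f t * Real.sqrt (f t)) = f t * f t * f t := by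
      rw [mul_mul_mul_comm, h3]
    rw [h4]
    simp only [f]
    rcases le_total (t - r ^ 2) 0 with h5 | h5
    · rw [max_eq_right h5]; ring
    · rw [max_eq_left h5]; ring
  have h1 := hb b
  have h2 : n2 τ (a * b) ^ 2 ≤ r ^ 2 * n2 τ b ^ 2 := by
    have h3 := n2_nonneg τ (a * b)
    have h4 := n2_nonneg τ b
    calc n2 τ (a * b) ^ 2 ≤ (r * n2 τ b) ^ 2 := by gcongr
      _ = _ := by ring
  rw [h.n2_sq, h.n2_sq] at h2
  have e2 : star (a * b) * (a * b) = b * x * b := by
    rw [star_mul, hbs, hx]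
    simp only [mul_assoc]
  rw [e2, e1, hbs, map_add, Complex.add_re] at h2
  have e3 : ((r ^ 2 : ℝ) • (b * b)) = ((r ^ 2 : ℝ) : ℂ) • (b * b) := by
    rw [Complex.coe_smul]
  rw [e3, map_smul, smul_eq_mul, Complex.re_ofReal_mul] at h2
  have h5 : n2 τ (cfc k x) ^ 2 ≤ 0 := by
    rw [h.n2_sq, hks]
    linarith
  have h6 : n2 τ (cfc k x) = 0 := by
    have := sq_nonneg (n2 τ (cfc k x))
    have h7 : n2 τ (cfc k x) ^ 2 = 0 := le_antisymm h5 this
    exact pow_eq_zero_iff two_ne_zero |>.1 h7
  have h7 : cfc k x = 0 := h.eq_zero h6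
  have h8 : ∀ t ∈ spectrum ℝ x, t ≤ r ^ 2 := by
    intro t ht
    by_contra hlt
    push Not at hlt
    have h9 : k t ∈ spectrum ℝ (cfc k x) := by
      rw [cfc_map_spectrum k x hxsa hk.continuousOn]
      exact ⟨t, ht, rfl⟩
    rw [h7] at h9
    have h10 : k t = 0 := by
      rcases subsingleton_or_nontrivial M with hs | hs
      · exfalso
        rw [spectrum.of_subsingleton] at h9
        exact h9
      · rw [spectrum.zero_eq] at h9
        exact h9
    have h11 : 0 < f t := by
      simp only [f]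
      rw [lt_max_iff]
      left
      linarith
    have h12 : 0 < k t := mul_pos h11 (Real.sqrt_pos.2 h11)
    linarith
  have h9 : ‖x‖ ≤ r ^ 2 := by
    have h10 : x = cfc (fun t : ℝ => t) x := (cfc_id' ℝ x).symm
    rw [h10]
    refine norm_cfc_le (sq_nonneg r) fun t ht => ?_
    rw [Real.norm_eq_abs, abs_of_nonneg (spectrum_nonneg_of_nonneg hxn ht)]
    exact h8 t ht
  have h10 : ‖a‖ * ‖a‖ ≤ r ^ 2 := by
    rw [← CStarRing.norm_star_mul_self]
    exact h9
  exact abs_le_of_sq_le_sq' (by nlinarith) hr |>.2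

end Q199.BF
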