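import Mathlib
import Pool.Agent.H504R3.Bridge

/-!
The values of formulas are bounded and uniformly continuous in the 2-norm on bounded sets,
uniformly in the tracial von Neumann algebra.
-/

set_option autoImplicit false

open scoped InnerProductSpace

namespace Q199.BF

open Pool.Agent.H504R3.S
open Pool.Agent.H504R3 (TVN)
open Pool.Agent.Helper278 (n2 n2_nonneg TrAlg)

theorem op_nonneg (M : TVN) (x : M.E) : 0 ≤ M.opNorm x := norm_nonneg _

theorem op_add (M : TVN) (x y : M.E) : M.opNorm (x + y) ≤ M.opNorm x + M.opNorm y :=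
  norm_add_le (E := M.H →L[ℂ] M.H) _ _

theorem op_mul (M : TVN) (x y : M.E) : M.opNorm (x * y) ≤ M.opNorm x * M.opNorm y :=
  norm_mul_le (α := M.H →L[ℂ] M.H) _ _

theorem op_star (M : TVN) (x : M.E) : M.opNorm (star x) = M.opNorm x :=
  norm_star (E := M.H →L[ℂ] M.H) x.1

theorem op_smul (M : TVN) (c : ℂ) (x : M.E) : M.opNorm (c • x) = ‖c‖ * M.opNorm x :=
  norm_smul (β := M.H →L[ℂ] M.H) _ _

theorem op_one (M : TVN) : M.opNorm (1 : M.E) ≤ 1 :=
  ContinuousLinearMap.norm_id_le (𝕜 := ℂ) (E := M.H)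

theorem op_zero (M : TVN) : M.opNorm (0 : M.E) = 0 := norm_zero (E := M.H →L[ℂ] M.H)

theorem tr_le_n2 (M : TVN) (x : M.E) : ‖M.τ x‖ ≤ n2 M.τ x := by
  have h1 := M.trAlg.cauchy' 1 x
  have h2 : n2 M.τ (1 : M.E) = 1 := by
    unfold n2
    rw [star_one, one_mul, M.map_one]
    simp
  rwa [one_mul, h2, one_mul] at h1

theorem n2_le_op (M : TVN) (x : M.E) : n2 M.τ x ≤ M.opNorm x := by
  have h1 := (M.n2_mul_le x 1).1
  have h2 : n2 M.τ (1 : M.E) = 1 := by
    unfold n2
    rw [star_one, one_mul, M.map_one]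
    simp
  rwa [mul_one, h2, mul_one] at h1

theorem tval_add (M : TVN) {V : Type} (x : V → M.E) (s t : Tm V) :
    tval M x (.add s t) = tval M x s + tval M x t := rfl
theorem tval_mul (M : TVN) {V : Type} (x : V → M.E) (s t : Tm V) :
    tval M x (.mul s t) = tval M x s * tval M x t := rfl
theorem tval_adj (M : TVN) {V : Type} (x : V → M.E) (s : Tm V) :
    tval M x (.adj s) = star (tval M x s) := rfl
theorem tval_scal (M : TVN) {V : Type} (x : V → M.E) (c : ℂ) (s : Tm V) :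
    tval M x (.scal c s) = c • tval M x s := rfl
theorem tval_var (M : TVN) {V : Type} (x : V → M.E) (v : V) : tval M x (.var v) = x v := rfl
theorem tval_one (M : TVN) {V : Type} (x : V → M.E) : tval M x .one = 1 := rfl

theorem tm_bdd {V : Type} (t : Tm V) (R : ℝ) : ∃ C : ℝ, 0 ≤ C ∧
    ∀ (M : TVN) (x : V → M.E), (∀ v, M.opNorm (x v) ≤ R) → M.opNorm (tval M x t) ≤ C := by
  induction t with
  | var v => exact ⟨|R|, abs_nonneg R, fun M x h => (h v).trans (le_abs_self R)⟩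
  | one => exact ⟨1, zero_le_one, fun M x h => op_one M⟩
  | add s t hs ht =>
    obtain ⟨C, hC, hs⟩ := hs
    obtain ⟨D, hD, ht⟩ := ht
    refine ⟨C + D, by positivity, fun M x h => ?_⟩
    rw [tval_add]
    exact (op_add M _ _).trans (add_le_add (hs M x h) (ht M x h))
  | mul s t hs ht =>
    obtain ⟨C, hC, hs⟩ := hs
    obtain ⟨D, hD, ht⟩ := ht
    refine ⟨C * D, by positivity, fun M x h => ?_⟩
    rw [tval_mul]
    exact (op_mul M _ _).trans (mul_le_mul (hs M x h) (ht M x h) (op_nonneg M _) hC)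
  | adj s hs =>
    obtain ⟨C, hC, hs⟩ := hs
    refine ⟨C, hC, fun M x h => ?_⟩
    rw [tval_adj, op_star]
    exact hs M x h
  | scal c s hs =>
    obtain ⟨C, hC, hs⟩ := hs
    refine ⟨‖c‖ * C, by positivity, fun M x h => ?_⟩
    rw [tval_scal, op_smul]
    exact mul_le_mul_of_nonneg_left (hs M x h) (norm_nonneg c)

theorem tm_lip {V : Type} (t : Tm V) (R : ℝ) : ∃ L : ℝ, 0 ≤ L ∧
    ∀ (M : TVN) (x x' : V → M.E), (∀ v, M.opNorm (x v) ≤ R) → (∀ v, M.opNorm (x' v) ≤ R) →
    ∀ δ : ℝ, 0 ≤ δ → (∀ v, n2 M.τ (x v - x' v) ≤ δ) →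
      n2 M.τ (tval M x t - tval M x' t) ≤ L * δ := by
  induction t with
  | var v => exact ⟨1, zero_le_one, fun M x x' _ _ δ _ h => by rw [one_mul]; exact h v⟩
  | one =>
    refine ⟨0, le_rfl, fun M x x' _ _ δ _ _ => ?_⟩
    rw [tval_one, tval_one, sub_self, M.trAlg.n2_zero, zero_mul]
  | add s t hs ht =>
    obtain ⟨C, hC, hs⟩ := hs
    obtain ⟨D, hD, ht⟩ := ht
    refine ⟨C + D, by positivity, fun M x x' h1 h2 δ h0 h => ?_⟩
    rw [tval_add, tval_add, add_sub_add_comm]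
    refine (M.trAlg.n2_add_le _ _).trans ?_
    rw [add_mul]
    exact add_le_add (hs M x x' h1 h2 δ h0 h) (ht M x x' h1 h2 δ h0 h)
  | mul s t hs ht =>
    obtain ⟨C, hC, hs⟩ := hs
    obtain ⟨D, hD, ht⟩ := ht
    obtain ⟨K, hK, hsb⟩ := tm_bdd s R
    obtain ⟨L, hL, htb⟩ := tm_bdd t R
    refine ⟨K * D + C * L, by positivity, fun M x x' h1 h2 δ h0 h => ?_⟩
    rw [tval_mul, tval_mul]
    have e : tval M x s * tval M x t - tval M x' s * tval M x' t =
        tval M x s * (tval M x t - tval M x' t) + (tval M x s - tval M x' s) * tval M x' t := by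
      rw [mul_sub, sub_mul]; abel
    rw [e]
    refine (M.trAlg.n2_add_le _ _).trans ?_
    have a1 := (M.n2_mul_le (tval M x s) (tval M x t - tval M x' t)).1
    have a2 := (M.n2_mul_le (tval M x' t) (tval M x s - tval M x' s)).2
    have a3 := hs M x x' h1 h2 δ h0 h
    have a4 := ht M x x' h1 h2 δ h0 h
    have a5 := hsb M x h1
    have a6 := htb M x' h2
    have a7 := n2_nonneg M.τ (tval M x t - tval M x' t)
    have a8 := n2_nonneg M.τ (tval M x s - tval M x' s)
    have a9 : M.opNorm (tval M x s) * n2 M.τ (tval M x t - tval M x' t) ≤ K * (D * δ) :=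
      mul_le_mul a5 a4 a7 hK
    have a10 : n2 M.τ (tval M x s - tval M x' s) * M.opNorm (tval M x' t) ≤ (C * δ) * L :=
      mul_le_mul a3 a6 (op_nonneg M _) (by positivity)
    calc _ ≤ K * (D * δ) + (C * δ) * L := add_le_add (a1.trans a9) (a2.trans a10)
      _ = _ := by ring
  | adj s hs =>
    obtain ⟨C, hC, hs⟩ := hs
    refine ⟨C, hC, fun M x x' h1 h2 δ h0 h => ?_⟩
    rw [tval_adj, tval_adj, ← star_sub, M.trAlg.n2_star]
    exact hs M x x' h1 h2 δ h0 h
  | scal c s hs =>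
    obtain ⟨C, hC, hs⟩ := hs
    refine ⟨‖c‖ * C, by positivity, fun M x x' h1 h2 δ h0 h => ?_⟩
    rw [tval_scal, tval_scal, ← smul_sub, Pool.Agent.H504R3.n2_smul M.trAlg, mul_assoc]
    exact mul_le_mul_of_nonneg_left (hs M x x' h1 h2 δ h0 h) (norm_nonneg c)

theorem ball_ne (M : TVN) (r : ℕ) : Nonempty ((str M).Ball r) :=
  ⟨⟨(0 : M.E), by show M.opNorm (0 : M.E) ≤ r; rw [op_zero]; positivity⟩⟩

theorem fm_bdd {n : ℕ} (φ : Fm n) : ∀ R : ℝ, ∃ C : ℝ, 0 ≤ C ∧
    ∀ (M : TVN) (x : Fin n → M.E), (∀ v, M.opNorm (x v) ≤ R) → |φ.val (str M) x| ≤ C := by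
  induction φ with
  | re t =>
    intro R
    obtain ⟨C, hC, h⟩ := tm_bdd t R
    exact ⟨C, hC, fun M x hx =>
      (Complex.abs_re_le_norm _).trans ((tr_le_n2 M _).trans ((n2_le_op M _).trans (h M x hx)))⟩
  | im t =>
    intro R
    obtain ⟨C, hC, h⟩ := tm_bdd t R
    exact ⟨C, hC, fun M x hx =>
      (Complex.abs_im_le_norm _).trans ((tr_le_n2 M _).trans ((n2_le_op M _).trans (h M x hx)))⟩
  | nrm t =>
    intro R
    obtain ⟨C, hC, h⟩ := tm_bdd t R
    refine ⟨C, hC, fun M x hx => ?_⟩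
    show |n2 M.τ (tval M x t)| ≤ C
    rw [abs_of_nonneg (n2_nonneg _ _)]
    exact (n2_le_op M _).trans (h M x hx)
  | @conn n k u φ ih =>
    intro R
    choose C hC h using fun i => ih i R
    have hK : IsCompact (Set.univ.pi fun i : Fin k => Set.Icc (-C i) (C i)) :=
      isCompact_univ_pi fun i => isCompact_Icc
    obtain ⟨D, hD⟩ := hK.exists_bound_of_continuousOn u.continuous.continuousOn
    refine ⟨max D 0, le_max_right _ _, fun M x hx => ?_⟩
    simp only [Fm.val]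
    refine (hD (fun i => (φ i).val (str M) x) ?_).trans (le_max_left _ _)
    intro i _
    exact abs_le.1 (h i M x hx)
  | sup r φ ih =>
    intro R
    obtain ⟨C, hC, h⟩ := ih (max R r)
    refine ⟨C, hC, fun M x hx => ?_⟩
    simp only [Fm.val]
    have := ball_ne M r
    have hb : ∀ y : (str M).Ball r, |φ.val (str M) (Fin.cons y.1 x)| ≤ C := by
      intro y
      refine h M _ fun i => ?_
      refine Fin.cases ?_ (fun j => ?_) i
      · exact y.2.trans (le_max_right _ _)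
      · exact (hx j).trans (le_max_left _ _)
    rw [abs_le]
    constructor
    · refine (abs_le.1 (hb (Classical.arbitrary _))).1.trans
        (le_ciSup (f := fun y : (str M).Ball r => φ.val (str M) (Fin.cons y.1 x)) ⟨C, ?_⟩ _)
      rintro _ ⟨y, rfl⟩
      exact (abs_le.1 (hb y)).2
    · exact ciSup_le fun y => (abs_le.1 (hb y)).2
  | inf r φ ih =>
    intro R
    obtain ⟨C, hC, h⟩ := ih (max R r)
    refine ⟨C, hC, fun M x hx => ?_⟩
    simp only [Fm.val]
    have := ball_ne M r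
    have hb : ∀ y : (str M).Ball r, |φ.val (str M) (Fin.cons y.1 x)| ≤ C := by
      intro y
      refine h M _ fun i => ?_
      refine Fin.cases ?_ (fun j => ?_) i
      · exact y.2.trans (le_max_right _ _)
      · exact (hx j).trans (le_max_left _ _)
    rw [abs_le]
    constructor
    · exact le_ciInf fun y => (abs_le.1 (hb y)).1
    · refine (ciInf_le (f := fun y : (str M).Ball r => φ.val (str M) (Fin.cons y.1 x)) ⟨-C, ?_⟩
        (Classical.arbitrary _)).trans (abs_le.1 (hb (Classical.arbitrary _))).2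
      rintro _ ⟨y, rfl⟩
      exact (abs_le.1 (hb y)).1

/-- the values over a ball are bounded -/
theorem bdd_ball {n : ℕ} (φ : Fm (n + 1)) (r : ℕ) (M : TVN) (x : Fin n → M.E) :
    ∃ C : ℝ, ∀ y : (str M).Ball r, |φ.val (str M) (Fin.cons y.1 x)| ≤ C := by
  set R : ℝ := max r (∑ i, M.opNorm (x i)) with hR
  obtain ⟨C, _, h⟩ := fm_bdd φ R
  refine ⟨C, fun y => h M _ fun i => ?_⟩
  refine Fin.cases ?_ (fun j => ?_) i
  · exact y.2.trans (le_max_left _ _)
  · refine le_trans ?_ (le_max_right _ _)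
    exact Finset.single_le_sum (f := fun i => M.opNorm (x i)) (fun i _ => op_nonneg M _)
      (Finset.mem_univ j)

theorem le_sup {n : ℕ} (φ : Fm (n + 1)) (r : ℕ) (M : TVN) (x : Fin n → M.E) (y : M.E)
    (hy : M.opNorm y ≤ r) :
    φ.val (str M) (Fin.cons y x) ≤ (Fm.sup r φ).val (str M) x := by
  obtain ⟨C, hC⟩ := bdd_ball φ r M x
  simp only [Fm.val]
  refine le_ciSup (f := fun y : (str M).Ball r => φ.val (str M) (Fin.cons y.1 x)) ⟨C, ?_⟩ ⟨y, hy⟩
  rintro _ ⟨y, rfl⟩
  exact (abs_le.1 (hC y)).2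

theorem sup_le {n : ℕ} (φ : Fm (n + 1)) (r : ℕ) (M : TVN) (x : Fin n → M.E) (c : ℝ)
    (h : ∀ y : M.E, M.opNorm y ≤ r → φ.val (str M) (Fin.cons y x) ≤ c) :
    (Fm.sup r φ).val (str M) x ≤ c := by
  have := ball_ne M r
  simp only [Fm.val]
  exact ciSup_le fun y => h y.1 y.2

theorem inf_le {n : ℕ} (φ : Fm (n + 1)) (r : ℕ) (M : TVN) (x : Fin n → M.E) (y : M.E)
    (hy : M.opNorm y ≤ r) :
    (Fm.inf r φ).val (str M) x ≤ φ.val (str M) (Fin.cons y x) := by
  obtain ⟨C, hC⟩ := bdd_ball φ r M x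
  simp only [Fm.val]
  refine ciInf_le (f := fun y : (str M).Ball r => φ.val (str M) (Fin.cons y.1 x)) ⟨-C, ?_⟩ ⟨y, hy⟩
  rintro _ ⟨y, rfl⟩
  exact (abs_le.1 (hC y)).1

theorem le_inf {n : ℕ} (φ : Fm (n + 1)) (r : ℕ) (M : TVN) (x : Fin n → M.E) (c : ℝ)
    (h : ∀ y : M.E, M.opNorm y ≤ r → c ≤ φ.val (str M) (Fin.cons y x)) :
    c ≤ (Fm.inf r φ).val (str M) x := by
  have := ball_ne M r
  simp only [Fm.val]
  exact le_ciInf fun y => h y.1 y.2

theorem fm_uc {n : ℕ} (φ : Fm n) : ∀ R : ℝ, ∀ ε : ℝ, 0 < ε → ∃ δ : ℝ, 0 < δ ∧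
    ∀ (M : TVN) (x x' : Fin n → M.E), (∀ v, M.opNorm (x v) ≤ R) → (∀ v, M.opNorm (x' v) ≤ R) →
      (∀ v, n2 M.τ (x v - x' v) ≤ δ) → |φ.val (str M) x - φ.val (str M) x'| ≤ ε := by
  have key : ∀ {n : ℕ} (t : Tm (Fin n)) (R ε : ℝ), 0 < ε → ∃ δ : ℝ, 0 < δ ∧
      ∀ (M : TVN) (x x' : Fin n → M.E), (∀ v, M.opNorm (x v) ≤ R) →
        (∀ v, M.opNorm (x' v) ≤ R) → (∀ v, n2 M.τ (x v - x' v) ≤ δ) →
        n2 M.τ (tval M x t - tval M x' t) ≤ ε := by
    intro n t R ε hε
    obtain ⟨L, hL, h⟩ := tm_lip t R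
    refine ⟨ε / (L + 1), by positivity, fun M x x' h1 h2 h3 => ?_⟩
    refine (h M x x' h1 h2 _ (by positivity) h3).trans ?_
    rw [mul_div_assoc', div_le_iff₀ (by positivity)]
    nlinarith
  induction φ with
  | re t =>
    intro R ε hε
    obtain ⟨δ, hδ, h⟩ := key t R ε hε
    refine ⟨δ, hδ, fun M x x' h1 h2 h3 => ?_⟩
    show |(M.τ (tval M x t)).re - (M.τ (tval M x' t)).re| ≤ ε
    rw [← Complex.sub_re, ← map_sub]
    exact (Complex.abs_re_le_norm _).trans ((tr_le_n2 M _).trans (h M x x' h1 h2 h3))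
  | im t =>
    intro R ε hε
    obtain ⟨δ, hδ, h⟩ := key t R ε hε
    refine ⟨δ, hδ, fun M x x' h1 h2 h3 => ?_⟩
    show |(M.τ (tval M x t)).im - (M.τ (tval M x' t)).im| ≤ ε
    rw [← Complex.sub_im, ← map_sub]
    exact (Complex.abs_im_le_norm _).trans ((tr_le_n2 M _).trans (h M x x' h1 h2 h3))
  | nrm t =>
    intro R ε hε
    obtain ⟨δ, hδ, h⟩ := key t R ε hε
    refine ⟨δ, hδ, fun M x x' h1 h2 h3 => ?_⟩
    show |n2 M.τ (tval M x t) - n2 M.τ (tval M x' t)| ≤ ε
    have h4 := h M x x' h1 h2 h3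
    have h5 := M.trAlg.n2_tri (tval M x t) (tval M x' t) 0
    have h6 := M.trAlg.n2_tri (tval M x' t) (tval M x t) 0
    rw [sub_zero, sub_zero] at h5 h6
    rw [M.trAlg.n2_sub_comm (tval M x' t)] at h6
    rw [abs_le]
    constructor <;> linarith
  | @conn n k u φ ih =>
    intro R ε hε
    choose C hC hb using fun i => fm_bdd (φ i) R
    have hK : IsCompact (Set.univ.pi fun i : Fin k => Set.Icc (-C i) (C i)) :=
      isCompact_univ_pi fun i => isCompact_Icc
    have huc := hK.uniformContinuousOn_of_continuous u.continuous.continuousOn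
    rw [Metric.uniformContinuousOn_iff] at huc
    obtain ⟨η, hη, hu⟩ := huc ε hε
    choose δ hδ h using fun i => ih i R (η / 2) (by positivity)
    obtain ⟨δ', hδ', hle⟩ : ∃ δ' : ℝ, 0 < δ' ∧ ∀ i, δ' ≤ δ i := by
      rcases Nat.eq_zero_or_pos k with hk | hk
      · subst hk
        exact ⟨1, one_pos, fun i => i.elim0⟩
      · have : Nonempty (Fin k) := ⟨⟨0, hk⟩⟩
        obtain ⟨i₀, hi₀⟩ := Finite.exists_min δ
        exact ⟨δ i₀, hδ i₀, hi₀⟩
    refine ⟨δ', hδ', fun M x x' h1 h2 h3 => ?_⟩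
    simp only [Fm.val]
    have h4 := hu (fun i => (φ i).val (str M) x) (fun i _ => abs_le.1 (hb i M x h1))
      (fun i => (φ i).val (str M) x') (fun i _ => abs_le.1 (hb i M x' h2)) (by
        refine lt_of_le_of_lt ((dist_pi_le_iff (by positivity)).2 fun i => ?_) (half_lt_self hη)
        exact h i M x x' h1 h2 fun v => (h3 v).trans (hle i))
    rw [Real.dist_eq] at h4
    exact h4.le
  | sup r φ ih =>
    intro R ε hε
    obtain ⟨δ, hδ, h⟩ := ih (max R r) ε hε
    refine ⟨δ, hδ, ?_⟩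
    have main : ∀ (M : TVN) (x x' : Fin _ → M.E), (∀ v, M.opNorm (x v) ≤ R) →
        (∀ v, M.opNorm (x' v) ≤ R) → (∀ v, n2 M.τ (x v - x' v) ≤ δ) →
        (Fm.sup r φ).val (str M) x ≤ (Fm.sup r φ).val (str M) x' + ε := by
      intro M x x' h1 h2 h3
      refine sup_le φ r M x _ fun y hy => ?_
      have h4 : |φ.val (str M) (Fin.cons y x) - φ.val (str M) (Fin.cons y x')| ≤ ε :=
        h M (Fin.cons y x) (Fin.cons y x') (fun i => by
        refine Fin.cases ?_ (fun j => ?_) i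
        · exact hy.trans (le_max_right _ _)
        · exact (h1 j).trans (le_max_left _ _)) (fun i => by
        refine Fin.cases ?_ (fun j => ?_) i
        · exact hy.trans (le_max_right _ _)
        · exact (h2 j).trans (le_max_left _ _)) (fun i => by
        refine Fin.cases ?_ (fun j => ?_) i
        · show n2 M.τ (y - y) ≤ δ
          rw [sub_self, M.trAlg.n2_zero]
          exact hδ.le
        · exact h3 j)
      have h5 := le_sup φ r M x' y hy
      have h6 := (abs_le.1 h4).2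
      linarith
    intro M x x' h1 h2 h3
    have a1 := main M x x' h1 h2 h3
    have a2 := main M x' x h2 h1 (fun v => by rw [M.trAlg.n2_sub_comm]; exact h3 v)
    rw [abs_le]
    constructor <;> linarith
  | inf r φ ih =>
    intro R ε hε
    obtain ⟨δ, hδ, h⟩ := ih (max R r) ε hε
    refine ⟨δ, hδ, ?_⟩
    have main : ∀ (M : TVN) (x x' : Fin _ → M.E), (∀ v, M.opNorm (x v) ≤ R) →
        (∀ v, M.opNorm (x' v) ≤ R) → (∀ v, n2 M.τ (x v - x' v) ≤ δ) →
        (Fm.inf r φ).val (str M) x - ε ≤ (Fm.inf r φ).val (str M) x' := by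
      intro M x x' h1 h2 h3
      refine le_inf φ r M x' _ fun y hy => ?_
      have h4 : |φ.val (str M) (Fin.cons y x) - φ.val (str M) (Fin.cons y x')| ≤ ε :=
        h M (Fin.cons y x) (Fin.cons y x') (fun i => by
        refine Fin.cases ?_ (fun j => ?_) i
        · exact hy.trans (le_max_right _ _)
        · exact (h1 j).trans (le_max_left _ _)) (fun i => by
        refine Fin.cases ?_ (fun j => ?_) i
        · exact hy.trans (le_max_right _ _)
        · exact (h2 j).trans (le_max_left _ _)) (fun i => by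
        refine Fin.cases ?_ (fun j => ?_) i
        · show n2 M.τ (y - y) ≤ δ
          rw [sub_self, M.trAlg.n2_zero]
          exact hδ.le
        · exact h3 j)
      have h5 := inf_le φ r M x y hy
      have h6 := (abs_le.1 h4).2
      linarith
    intro M x x' h1 h2 h3
    have a1 := main M x x' h1 h2 h3
    have a2 := main M x' x h2 h1 (fun v => by rw [M.trAlg.n2_sub_comm]; exact h3 v)
    rw [abs_le]
    constructor <;> linarith

end Q199.BF
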