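import Mathlib
import Pool.Agent.Q199.BF.UC
import Pool.Agent.Q199.BF.NormC

/-!
Systems of Pauli strings over an arbitrary index set that generate a tracial von Neumann algebra.
-/

set_option autoImplicit false

open scoped InnerProductSpace

namespace Q199.BF

open Pool.Agent.H504R3.S
open Pool.Agent.H504R3 (TVN)
open Pool.Agent.Helper278 (n2 n2_nonneg TrAlg)
open Pool.Agent.Helper436.SM (sg sg_add sg_mul_self norm_sg star_sg)

/-- Pauli strings over `T` -/
abbrev VT (T : Type) : Type := T →₀ (ZMod 2 × ZMod 2)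

/-- the bilinear form -/
def bt {T : Type} (v w : VT T) : ZMod 2 := v.sum fun i a => a.2 * (w i).1

section form

variable {T : Type}

theorem bt_add_left (u v w : VT T) : bt (u + v) w = bt u w + bt v w := by
  unfold bt
  refine Finsupp.sum_add_index' (fun i => ?_) (fun i a b => ?_)
  · simp
  · rw [Prod.snd_add, add_mul]

theorem bt_add_right (u v w : VT T) : bt u (v + w) = bt u v + bt u w := by
  unfold bt Finsupp.sum
  rw [← Finset.sum_add_distrib]
  refine Finset.sum_congr rfl (fun i _ => ?_)
  show (u i).2 * ((v + w) i).1 = (u i).2 * (v i).1 + (u i).2 * (w i).1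
  rw [Finsupp.add_apply, Prod.fst_add, mul_add]

theorem bt_zero_left (w : VT T) : bt 0 w = 0 := by
  unfold bt
  exact Finsupp.sum_zero_index

theorem bt_zero_right (w : VT T) : bt w 0 = 0 := by
  unfold bt Finsupp.sum
  refine Finset.sum_eq_zero (fun i _ => ?_)
  simp

theorem vt_add_self (v : VT T) : v + v = 0 := by
  ext i <;> simp [CharTwo.add_self_eq_zero]

theorem vt_add_eq_zero {v w : VT T} : v + w = 0 ↔ v = w := by
  constructor
  · intro h
    have : v + w + w = w := by rw [h, zero_add]
    rwa [add_assoc, vt_add_self, add_zero] at this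
  · rintro rfl
    exact vt_add_self v

theorem bt_disj (v w : VT T) (h : ∀ t, v t = 0 ∨ w t = 0) : bt v w = 0 := by
  unfold bt Finsupp.sum
  refine Finset.sum_eq_zero fun i _ => ?_
  beta_reduce
  rcases h i with h | h <;> rw [h] <;> simp

theorem bt_map {Λ : Type} (X : Λ → T) (hX : Function.Injective X) (v w : VT Λ) :
    bt (v.mapDomain X) (w.mapDomain X) = bt v w := by
  unfold bt
  rw [Finsupp.sum_mapDomain_index (fun i => by simp) (fun i a b => by rw [Prod.snd_add, add_mul])]
  refine Finsupp.sum_congr fun i _ => ?_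
  rw [Finsupp.mapDomain_apply hX]

end form

/-- Pauli strings that generate the tracial von Neumann algebra `M` -/
structure PS {T : Type} (M : TVN) (W : VT T → M.E) : Prop where
  zero : W 0 = 1
  mul : ∀ v w, W v * W w = sg (bt v w) • W (v + w)
  star : ∀ v, star (W v) = sg (bt v v) • W v
  trace : ∀ v, v ≠ 0 → M.τ (W v) = 0
  dense : ∀ (x : M.E) (ε : ℝ), 0 < ε → ∃ c : VT T →₀ ℂ,
    n2 M.τ (x - Finsupp.linearCombination ℂ W c) < ε

/-- product of coefficient functions -/
noncomputable def mulc {Λ : Type} (c d : VT Λ →₀ ℂ) : VT Λ →₀ ℂ :=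
  c.sum fun v a => d.sum fun w b => Finsupp.single (v + w) (a * b * sg (bt v w))

/-- adjoint of a coefficient function -/
noncomputable def starc {Λ : Type} (c : VT Λ →₀ ℂ) : VT Λ →₀ ℂ :=
  c.sum fun v a => Finsupp.single v (star a * sg (bt v v))

/-- coefficients of a term -/
noncomputable def tc {Λ V : Type} (c : V → VT Λ →₀ ℂ) : Tm V → VT Λ →₀ ℂ
  | .var v => c v
  | .one => Finsupp.single 0 1
  | .add s t => tc c s + tc c t
  | .mul s t => mulc (tc c s) (tc c t)
  | .adj s => starc (tc c s)
  | .scal a s => a • tc c s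

/-- the 2-norm -/
noncomputable def nc {Λ : Type} (c : VT Λ →₀ ℂ) : ℝ := Real.sqrt (mulc (starc c) c 0).re

/-- elements of finite level -/
noncomputable def S (M : TVN) {T Λ : Type} (W : VT T → M.E) (X : Λ → T) :
    (VT Λ →₀ ℂ) →ₗ[ℂ] M.E :=
  Finsupp.linearCombination ℂ (fun v => W (v.mapDomain X))

section sys

variable {T Λ : Type} {M : TVN} {W : VT T → M.E} {X : Λ → T}

theorem S_single (v : VT Λ) (a : ℂ) : S M W X (Finsupp.single v a) = a • W (v.mapDomain X) :=
  Finsupp.linearCombination_single _ _ _

theorem S_eq_sum (c : VT Λ →₀ ℂ) : S M W X c = c.sum fun v a => a • W (v.mapDomain X) :=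
  Finsupp.linearCombination_apply _ _

variable (hW : PS M W)

include hW in
theorem S_mul (hX : Function.Injective X) (c d : VT Λ →₀ ℂ) :
    S M W X (mulc c d) = S M W X c * S M W X d := by
  unfold mulc
  rw [map_finsuppSum, S_eq_sum c, S_eq_sum d, Finsupp.sum_mul]
  refine Finsupp.sum_congr fun v _ => ?_
  rw [map_finsuppSum, Finsupp.mul_sum]
  refine Finsupp.sum_congr fun w _ => ?_
  rw [S_single, smul_mul_smul_comm, hW.mul, bt_map X hX, Finsupp.mapDomain_add, smul_smul]

include hW in
theorem S_star (hX : Function.Injective X) (c : VT Λ →₀ ℂ) :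
    S M W X (starc c) = star (S M W X c) := by
  unfold starc
  rw [map_finsuppSum, S_eq_sum c]
  unfold Finsupp.sum
  rw [star_sum]
  refine Finset.sum_congr rfl fun v _ => ?_
  beta_reduce
  rw [S_single, star_smul, hW.star, bt_map X hX, smul_smul]

include hW in
theorem S_one : S M W X (Finsupp.single 0 1) = 1 := by
  rw [S_single, Finsupp.mapDomain_zero, hW.zero, one_smul]

include hW in
theorem S_trace (hX : Function.Injective X) (c : VT Λ →₀ ℂ) : M.τ (S M W X c) = c 0 := by
  classical
  rw [S_eq_sum, map_finsuppSum]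
  have h0 : ∀ v : VT Λ, M.τ (W (v.mapDomain X)) = if v = 0 then 1 else 0 := by
    intro v
    split_ifs with hv
    · rw [hv, Finsupp.mapDomain_zero, hW.zero, M.map_one]
    · refine hW.trace _ fun h => hv ?_
      exact Finsupp.mapDomain_injective hX (by rw [h, Finsupp.mapDomain_zero])
  simp only [map_smul, h0, smul_eq_mul, mul_ite, mul_one, mul_zero]
  rw [Finsupp.sum_ite_eq']
  split_ifs with h
  · rfl
  · exact (Finsupp.notMem_support_iff.1 h).symm

include hW in
theorem n2_S (hX : Function.Injective X) (c : VT Λ →₀ ℂ) : n2 M.τ (S M W X c) = nc c := by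
  unfold n2 nc
  rw [← S_star hW hX, ← S_mul hW hX, S_trace hW hX]

include hW in
theorem tval_S (hX : Function.Injective X) {V : Type} (c : V → VT Λ →₀ ℂ) (t : Tm V) :
    tval M (fun i => S M W X (c i)) t = S M W X (tc c t) := by
  induction t with
  | var v => rfl
  | one => rw [tval_one, tc, S_one hW]
  | add s t hs ht => rw [tval_add, hs, ht, tc, map_add]
  | mul s t hs ht => rw [tval_mul, hs, ht, tc, S_mul hW hX]
  | adj s hs => rw [tval_adj, hs, tc, S_star hW hX]
  | scal a s hs => rw [tval_scal, hs, tc, map_smul]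

theorem S_comp {Λ' : Type} (ι : Λ → Λ') (X' : Λ' → T) (c : VT Λ →₀ ℂ)
    (h : ∀ l, X' (ι l) = X l) :
    S M W X c = S M W X' (c.mapDomain (Finsupp.mapDomain ι)) := by
  unfold S
  rw [Finsupp.linearCombination_mapDomain]
  congr 2
  funext v
  show W (v.mapDomain X) = W ((v.mapDomain ι).mapDomain X')
  rw [← Finsupp.mapDomain_comp]
  congr 2
  funext l
  exact (h l).symm

/-- an element of the span lies in every large finite level -/
theorem exists_level {Λ' : Type} (X' : Λ' → T) (hX' : Function.Injective X') (c : VT T →₀ ℂ)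
    (h : ∀ v ∈ c.support, ∀ t ∈ v.support, t ∈ Set.range X') :
    ∃ d : VT Λ' →₀ ℂ, Finsupp.linearCombination ℂ W c = S M W X' d := by
  refine ⟨c.mapDomain (fun v => v.comapDomain X' hX'.injOn), ?_⟩
  unfold S
  rw [Finsupp.linearCombination_mapDomain, Finsupp.linearCombination_apply,
    Finsupp.linearCombination_apply]
  refine Finsupp.sum_congr fun v hv => ?_
  congr 1
  show W v = W ((v.comapDomain X' hX'.injOn).mapDomain X')
  rw [Finsupp.mapDomain_comapDomain _ hX' _ (fun t ht => h v hv t ht)]

end sys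

/-- the union of the supports -/
def supp {T : Type} [DecidableEq T] (c : VT T →₀ ℂ) : Finset T :=
  c.support.biUnion fun v => v.support

end Q199.BF
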