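import Mathlib
import Pool.Agent.Q199.BF.Sys

/-!
Conditional expectations on the finite levels, and approximation in the operator norm balls.
-/

set_option autoImplicit false
set_option linter.unusedSectionVars false

open scoped InnerProductSpace

namespace Q199.BF

open Pool.Agent.H504R3.S
open Pool.Agent.H504R3 (TVN n2_smul)
open Pool.Agent.Helper278 (n2 n2_nonneg TrAlg)
open Pool.Agent.Helper436.SM (sg sg_add sg_mul_self norm_sg star_sg)

section

variable {T : Type} {M : TVN} {W : VT T → M.E} (hW : PS M W)

/-- the span of the strings -/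
noncomputable abbrev L (M : TVN) (W : VT T → M.E) : (VT T →₀ ℂ) →ₗ[ℂ] M.E :=
  Finsupp.linearCombination ℂ W

include hW in
/-- operator norm from the 2-norm on the span of the strings -/
theorem op_le_of_span (a : M.E) (r : ℝ) (hr : 0 ≤ r)
    (h : ∀ d : VT T →₀ ℂ, n2 M.τ (a * L M W d) ≤ r * n2 M.τ (L M W d)) : M.opNorm a ≤ r := by
  have key : ∀ y : M.E, n2 M.τ (a * y) ≤ r * n2 M.τ y := by
    intro y
    refine le_of_forall_pos_le_add fun ε hε => ?_
    have hpos : 0 < M.opNorm a + r + 1 := by
      have := op_nonneg M a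
      linarith
    obtain ⟨d, hd⟩ := hW.dense y (ε / (M.opNorm a + r + 1)) (by positivity)
    set w := L M W d with hw
    have e1 : a * y = a * w + a * (y - w) := by rw [mul_sub]; abel
    have h1 := M.trAlg.n2_add_le (a * w) (a * (y - w))
    rw [← e1] at h1
    have h2 := h d
    have h3 := (M.n2_mul_le a (y - w)).1
    have h4 : n2 M.τ w ≤ n2 M.τ y + n2 M.τ (y - w) := by
      have h5 := M.trAlg.n2_sub_le y (y - w)
      rwa [sub_sub_cancel] at h5
    have h5 := op_nonneg M a
    have h6 : M.opNorm a * n2 M.τ (y - w) ≤ M.opNorm a * (ε / (M.opNorm a + r + 1)) :=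
      mul_le_mul_of_nonneg_left hd.le h5
    have h7 : r * n2 M.τ w ≤ r * (n2 M.τ y + ε / (M.opNorm a + r + 1)) :=
      mul_le_mul_of_nonneg_left (h4.trans (by linarith)) hr
    have h8 : (M.opNorm a + r) * (ε / (M.opNorm a + r + 1)) ≤ ε := by
      rw [mul_div_assoc', div_le_iff₀ hpos]
      nlinarith
    nlinarith
  exact norm_le_of_n2 (M := Pool.Agent.H467F.Elt M.N) M.tw a r hr key

include hW in
open Classical in
theorem tr_prod (v w : VT T) : M.τ (W v * W w) = if v = w then sg (bt v v) else 0 := by
  rw [hW.mul, map_smul, smul_eq_mul]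
  split_ifs with h
  · rw [h, vt_add_self, hW.zero, M.map_one, mul_one]
  · rw [hW.trace _ (fun h0 => h (vt_add_eq_zero.1 h0)), mul_zero]

include hW in
theorem W_unit (v : VT T) : W v * star (W v) = 1 := by
  rw [hW.star, mul_smul_comm, hW.mul, smul_smul, sg_mul_self, one_smul, vt_add_self, hW.zero]

variable {Λ : Type} [Finite Λ] {X : Λ → T} (hX : Function.Injective X)

/-- the coefficients of the conditional expectation -/
noncomputable def ec (M : TVN) (W : VT T → M.E) (X : Λ → T) (y : M.E) : VT Λ →₀ ℂ :=
  have : Finite (VT Λ) := Finite.of_equiv _ Finsupp.equivFunOnFinite.symm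
  Finsupp.equivFunOnFinite.symm (fun v => M.τ (star (W (v.mapDomain X)) * y))

omit [Finite Λ] in
theorem ec_apply [Finite Λ] (y : M.E) (v : VT Λ) :
    ec M W X y v = M.τ (star (W (v.mapDomain X)) * y) := rfl

include hW hX in
/-- the conditional expectation has the right traces -/
theorem tr_ec (y : M.E) (s : VT Λ →₀ ℂ) :
    M.τ (S M W X s * S M W X (ec M W X y)) = M.τ (S M W X s * y) := by
  classical
  induction s using Finsupp.induction_linear with
  | zero => simp
  | add f g hf hg => rw [map_add, add_mul, add_mul, map_add, map_add, hf, hg]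
  | single v a =>
    rw [S_single, smul_mul_assoc, smul_mul_assoc, map_smul, map_smul]
    congr 1
    rw [S_eq_sum, Finsupp.mul_sum, map_finsuppSum]
    have h1 : ∀ w : VT Λ, ∀ b : ℂ, M.τ (W (v.mapDomain X) * b • W (w.mapDomain X)) =
        if v = w then b * sg (bt v v) else 0 := by
      intro w b
      rw [mul_smul_comm, map_smul, tr_prod hW, bt_map X hX, smul_eq_mul]
      by_cases hvw : v = w
      · rw [if_pos hvw, if_pos (by rw [hvw])]
      · rw [if_neg hvw, if_neg (fun h => hvw (Finsupp.mapDomain_injective hX h)), mul_zero]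
    simp only [h1]
    rw [Finsupp.sum_ite_eq]
    have h2 : ec M W X y v * sg (bt v v) = M.τ (W (v.mapDomain X) * y) := by
      rw [ec_apply, hW.star, bt_map X hX, smul_mul_assoc, map_smul, smul_eq_mul, mul_comm,
        ← mul_assoc, sg_mul_self, one_mul]
    split_ifs with h
    · exact h2
    · rw [← h2, Finsupp.notMem_support_iff.1 h, zero_mul]

include hW hX in
/-- orthogonality of the components off the finite level -/
theorem n2_comp (U : Finset (VT T)) (hU : ∀ u ∈ U, ∀ l, u (X l) = 0) (s : VT T → VT Λ →₀ ℂ) :
    n2 M.τ (∑ u ∈ U, S M W X (s u) * W u) ^ 2 = ∑ u ∈ U, n2 M.τ (S M W X (s u)) ^ 2 := by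
  classical
  have h0 : ∀ (g : VT Λ →₀ ℂ) (u u' : VT T), u ∈ U → u' ∈ U → u ≠ u' →
      M.τ (S M W X g * (W u' * star (W u))) = 0 := by
    intro g u u' hu hu' hne
    rw [hW.star, mul_smul_comm, hW.mul, smul_smul, mul_smul_comm, map_smul]
    suffices h : M.τ (S M W X g * W (u' + u)) = 0 by rw [h, smul_zero]
    induction g using Finsupp.induction_linear with
    | zero => simp
    | add f g hf hg => rw [map_add, add_mul, map_add, hf, hg, add_zero]
    | single v a =>
      rw [S_single, smul_mul_assoc, map_smul, tr_prod hW, if_neg, smul_zero]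
      intro hv
      apply hne
      ext1 t
      by_cases ht : t ∈ Set.range X
      · obtain ⟨l, rfl⟩ := ht
        rw [hU u hu, hU u' hu']
      · have h1 : (u' + u) t = 0 := by
          rw [← hv]
          exact Finsupp.mapDomain_of_notMem_range _ _ ht
        have h2 : (u + u') t = 0 := by rw [add_comm]; exact h1
        have h3 : ∀ a b : ZMod 2 × ZMod 2, a + b = 0 → a = b := by decide
        exact h3 _ _ h2
  rw [M.trAlg.n2_sq, star_sum, Finset.sum_mul, map_sum, Complex.re_sum]
  refine Finset.sum_congr rfl fun u hu => ?_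
  rw [Finset.mul_sum, map_sum, Complex.re_sum, Finset.sum_eq_single u]
  · rw [M.trAlg.n2_sq, star_mul]
    congr 1
    calc M.τ (star (W u) * star (S M W X (s u)) * (S M W X (s u) * W u))
        = M.τ (star (W u) * (star (S M W X (s u)) * S M W X (s u) * W u)) := by
          simp only [mul_assoc]
      _ = M.τ (star (S M W X (s u)) * S M W X (s u) * (W u * star (W u))) := by
          rw [M.trAlg.comm]; simp only [mul_assoc]
      _ = _ := by rw [W_unit hW, mul_one]
  · intro u' hu' hne
    have h1 : M.τ (star (S M W X (s u) * W u) * (S M W X (s u') * W u')) =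
        M.τ (S M W X (mulc (starc (s u)) (s u')) * (W u' * star (W u))) := by
      rw [star_mul, S_mul hW hX, S_star hW hX]
      calc M.τ (star (W u) * star (S M W X (s u)) * (S M W X (s u') * W u'))
          = M.τ (star (W u) * (star (S M W X (s u)) * S M W X (s u') * W u')) := by
            simp only [mul_assoc]
        _ = _ := by rw [M.trAlg.comm]; simp only [mul_assoc]
    rw [h1, h0 _ u u' hu hu' hne.symm]
    rfl
  · intro h
    exact absurd hu h

include hW hX in
/-- decomposition along the finite level -/
theorem decomp (d : VT T →₀ ℂ) : ∃ (U : Finset (VT T)) (s : VT T → VT Λ →₀ ℂ),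
    (∀ u ∈ U, ∀ l, u (X l) = 0) ∧ L M W d = ∑ u ∈ U, S M W X (s u) * W u := by
  classical
  induction d using Finsupp.induction_linear with
  | zero => exact ⟨∅, fun _ => 0, by simp, by simp⟩
  | add f g hf hg =>
    obtain ⟨U, s, hU, hs⟩ := hf
    obtain ⟨U', s', hU', hs'⟩ := hg
    refine ⟨U ∪ U', fun u => (if u ∈ U then s u else 0) + (if u ∈ U' then s' u else 0),
      ?_, ?_⟩
    · intro u hu
      rcases Finset.mem_union.1 hu with h | h
      · exact hU u h
      · exact hU' u h
    · rw [map_add, hs, hs']
      simp only [map_add, add_mul, Finset.sum_add_distrib]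
      congr 1
      · rw [← Finset.sum_subset Finset.subset_union_left]
        · refine Finset.sum_congr rfl fun u hu => ?_
          rw [if_pos hu]
        · intro u _ hu
          rw [if_neg hu, map_zero, zero_mul]
      · rw [← Finset.sum_subset Finset.subset_union_right]
        · refine Finset.sum_congr rfl fun u hu => ?_
          rw [if_pos hu]
        · intro u _ hu
          rw [if_neg hu, map_zero, zero_mul]
  | single v a =>
    set u : VT T := v.filter (fun t => t ∉ Set.range X) with hu
    set p : VT T := v.filter (fun t => t ∈ Set.range X) with hp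
    have hpu : p + u = v := Finsupp.filter_add_filter_not v _
    refine ⟨{u}, fun _ => Finsupp.single (p.comapDomain X hX.injOn) a, ?_, ?_⟩
    · intro u' hu' l
      rw [Finset.mem_singleton.1 hu', hu, Finsupp.filter_apply_neg]
      simp
    · rw [Finset.sum_singleton, S_single, Finsupp.mapDomain_comapDomain _ hX _ ?_]
      · rw [Finsupp.linearCombination_single, smul_mul_assoc, hW.mul, hpu]
        have h0 : bt p u = 0 := by
          refine bt_disj _ _ fun t => ?_
          by_cases ht : t ∈ Set.range X
          · right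
            rw [hu, Finsupp.filter_apply_neg]
            simpa using ht
          · left
            rw [hp, Finsupp.filter_apply_neg]
            exact ht
        rw [h0]
        simp [sg]
      · intro t ht
        rw [hp, Finsupp.support_filter] at ht
        exact (Finset.mem_filter.1 ht).2

include hW hX in
/-- The conditional expectation is a contraction in the operator norm. -/
theorem op_ec (y : M.E) : M.opNorm (S M W X (ec M W X y)) ≤ M.opNorm y := by
  refine op_le_of_span hW _ _ (op_nonneg M y) fun d => ?_
  obtain ⟨U, s, hU, hd⟩ := decomp hW hX d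
  rw [hd]
  set E := S M W X (ec M W X y) with hE
  have h1 : ∀ s : VT Λ →₀ ℂ, n2 M.τ (E * S M W X s) ≤ M.opNorm y * n2 M.τ (S M W X s) := by
    intro s
    have h2 : n2 M.τ (E * S M W X s) ^ 2 ≤ n2 M.τ (E * S M W X s) *
        (M.opNorm y * n2 M.τ (S M W X s)) := by
      rw [M.trAlg.n2_sq]
      have e1 : M.τ (star (E * S M W X s) * (E * S M W X s)) =
          M.τ (star (E * S M W X s) * (y * S M W X s)) := by
        have e2 : ∀ z : M.E, M.τ (star (E * S M W X s) * (z * S M W X s)) =
            M.τ (S M W X (mulc s (starc (mulc (ec M W X y) s))) * z) := by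
          intro z
          rw [S_mul hW hX, S_star hW hX, S_mul hW hX, ← mul_assoc, M.trAlg.comm, ← mul_assoc]
        rw [e2, e2, tr_ec hW hX]
      rw [e1]
      refine (Complex.re_le_norm _).trans ((M.trAlg.cauchy _ _).trans ?_)
      exact mul_le_mul_of_nonneg_left (M.n2_mul_le y _).1 (n2_nonneg _ _)
    rcases (n2_nonneg M.τ (E * S M W X s)).eq_or_lt with h3 | h3
    · rw [← h3]
      exact mul_nonneg (op_nonneg M y) (n2_nonneg _ _)
    · rw [sq] at h2
      exact le_of_mul_le_mul_left h2 h3
  have h2 : E * ∑ u ∈ U, S M W X (s u) * W u =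
      ∑ u ∈ U, S M W X (mulc (ec M W X y) (s u)) * W u := by
    rw [Finset.mul_sum]
    refine Finset.sum_congr rfl fun u _ => ?_
    rw [S_mul hW hX, mul_assoc]
  rw [h2]
  refine abs_le_of_sq_le_sq' ?_ (mul_nonneg (op_nonneg M y) (n2_nonneg _ _)) |>.2
  rw [mul_pow, n2_comp hW hX U hU, n2_comp hW hX U hU, Finset.mul_sum]
  refine Finset.sum_le_sum fun u _ => ?_
  rw [S_mul hW hX, ← mul_pow]
  have := h1 (s u)
  have h3 := n2_nonneg M.τ (S M W X (ec M W X y) * S M W X (s u))
  gcongr

include hW hX in
/-- The conditional expectation is the best approximation. -/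
theorem n2_ec_le (y : M.E) (s : VT Λ →₀ ℂ) :
    n2 M.τ (y - S M W X (ec M W X y)) ≤ n2 M.τ (y - S M W X s) := by
  set E := S M W X (ec M W X y) with hE
  set z := S M W X s with hz
  refine abs_le_of_sq_le_sq' ?_ (n2_nonneg _ _) |>.2
  have e1 : M.τ (star (E - z) * (y - E)) = 0 := by
    have e2 : star (E - z) = S M W X (starc (ec M W X y) - starc s) := by
      rw [map_sub, S_star hW hX, S_star hW hX, star_sub]
    rw [e2, mul_sub, map_sub, tr_ec hW hX, sub_self]
  have e2 : M.τ (star (y - E) * (E - z)) = 0 := by
    have h3 := M.trAlg.conj (star (E - z) * (y - E))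
    rw [e1, star_mul, star_star] at h3
    rw [h3]
    simp
  have e3 : star (y - z) * (y - z) = star (y - E) * (y - E) + star (E - z) * (E - z) +
      star (y - E) * (E - z) + star (E - z) * (y - E) := by
    have : y - z = (y - E) + (E - z) := by abel
    rw [this, star_add]
    noncomm_ring
  rw [M.trAlg.n2_sq, M.trAlg.n2_sq (y - z), e3, map_add, map_add, map_add, e1, e2, add_zero,
    add_zero, Complex.add_re]
  have := M.trAlg.re_nonneg (E - z)
  linarith

end

section

variable {T : Type} {M : TVN} {W : VT T → M.E} (hW : PS M W)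

include hW in
/-- approximation by elements of finite level of no larger operator norm -/
theorem approx (y : M.E) (ε : ℝ) (hε : 0 < ε) (F₀ : Finset T) : ∃ F : Finset T, F₀ ⊆ F ∧
    ∃ d : VT F →₀ ℂ, n2 M.τ (y - S M W (Subtype.val : F → T) d) < ε ∧
      M.opNorm (S M W (Subtype.val : F → T) d) ≤ M.opNorm y := by
  classical
  obtain ⟨c, hc⟩ := hW.dense y ε hε
  refine ⟨F₀ ∪ supp c, Finset.subset_union_left, ?_⟩
  set F := F₀ ∪ supp c with hF
  obtain ⟨s, hs⟩ := exists_level (M := M) (W := W) (Subtype.val : F → T) Subtype.val_injective c (by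
    intro v hv t ht
    refine ⟨⟨t, ?_⟩, rfl⟩
    exact Finset.mem_union_right _ (Finset.mem_biUnion.2 ⟨v, hv, ht⟩))
  refine ⟨ec M W (Subtype.val : F → T) y, ?_, op_ec hW Subtype.val_injective y⟩
  refine lt_of_le_of_lt (n2_ec_le hW Subtype.val_injective y s) ?_
  rw [← hs]
  exact hc

end

end Q199.BF
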