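import Mathlib
import Pool.Agent.Q199.BF.CE

/-!
Back and forth: the values of formulas at elements of finite level do not depend on the algebra and
on the positions.
-/

set_option autoImplicit false
set_option linter.unusedSectionVars false

open scoped InnerProductSpace

namespace Q199.BF

open Pool.Agent.H504R3.S
open Pool.Agent.H504R3 (TVN n2_smul)
open Pool.Agent.Helper278 (n2 n2_nonneg TrAlg)

/-- extension of a finite partial injection -/
theorem exists_ext {T T' Λ : Type} [Infinite T'] [Finite Λ] (X : Λ → T)
    (hX : Function.Injective X) (X' : Λ → T') (hX' : Function.Injective X') (F : Finset T)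
    (hF : ∀ l, X l ∈ F) :
    ∃ Y : F → T', Function.Injective Y ∧ ∀ l, Y ⟨X l, hF l⟩ = X' l := by
  classical
  have hinf : Infinite {t : T' // t ∉ Set.range X'} := by
    have : (Set.range X')ᶜ.Infinite := (Set.finite_range X').infinite_compl
    exact this.to_subtype
  obtain ⟨g⟩ : Nonempty (F ↪ {t : T' // t ∉ Set.range X'}) := by
    have h1 := Infinite.natEmbedding {t : T' // t ∉ Set.range X'}
    exact ⟨(F.equivFin.toEmbedding.trans Fin.valEmbedding).trans h1⟩
  refine ⟨fun t => if h : ∃ l, X l = t.1 then X' h.choose else (g t).1, ?_, ?_⟩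
  · intro s t hst
    beta_reduce at hst
    by_cases h1 : ∃ l, X l = s.1
    · by_cases h2 : ∃ l, X l = t.1
      · rw [dif_pos h1, dif_pos h2] at hst
        have h3 := hX' hst
        apply Subtype.ext
        rw [← h1.choose_spec, ← h2.choose_spec, h3]
      · rw [dif_pos h1, dif_neg h2] at hst
        exact absurd ⟨_, hst⟩ (g t).2
    · by_cases h2 : ∃ l, X l = t.1
      · rw [dif_neg h1, dif_pos h2] at hst
        exact absurd ⟨_, hst.symm⟩ (g s).2
      · rw [dif_neg h1, dif_neg h2] at hst
        exact g.injective (Subtype.ext hst)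
  · intro l
    have h1 : ∃ l', X l' = X l := ⟨l, rfl⟩
    beta_reduce
    rw [dif_pos h1]
    congr 1
    exact hX h1.choose_spec

section

variable {T T' : Type} [Infinite T'] {M M' : TVN} {W : VT T → M.E} {W' : VT T' → M'.E}
  (hW : PS M W) (hW' : PS M' W') {Λ : Type} [Finite Λ] {X : Λ → T} {X' : Λ → T'}
  (hX : Function.Injective X) (hX' : Function.Injective X')

include hW hW' hX hX' in
/-- The operator norm of an element of finite level depends only on its coefficients. -/
theorem op_S_le (c : VT Λ →₀ ℂ) : M.opNorm (S M W X c) ≤ M'.opNorm (S M' W' X' c) := by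
  classical
  have := Fintype.ofFinite Λ
  refine op_le_of_span hW _ _ (op_nonneg M' _) fun d => ?_
  set F : Finset T := Finset.univ.image X ∪ supp d with hF
  have hXF : ∀ l, X l ∈ F := fun l =>
    Finset.mem_union_left _ (Finset.mem_image_of_mem _ (Finset.mem_univ l))
  obtain ⟨s, hs⟩ := exists_level (M := M) (W := W) (Subtype.val : F → T) Subtype.val_injective d (by
    intro v hv t ht
    refine ⟨⟨t, ?_⟩, rfl⟩
    exact Finset.mem_union_right _ (Finset.mem_biUnion.2 ⟨v, hv, ht⟩))
  obtain ⟨Y, hY, hYX⟩ := exists_ext X hX X' hX' F hXF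
  have hs' : L M W d = S M W (Subtype.val : F → T) s := hs
  rw [hs', S_comp (X := X) (fun l => (⟨X l, hXF l⟩ : F)) (Subtype.val : F → T) c (fun _ => rfl),
    S_comp (X := X') (fun l => (⟨X l, hXF l⟩ : F)) Y c hYX,
    ← S_mul hW Subtype.val_injective, n2_S hW Subtype.val_injective,
    n2_S hW Subtype.val_injective, ← n2_S hW' hY, ← n2_S hW' hY, S_mul hW' hY]
  exact (M'.n2_mul_le _ _).1

end

/-- Back and forth. -/
theorem bf {n : ℕ} (φ : Fm n) : ∀ {T T' : Type} [Infinite T] [Infinite T'] {M M' : TVN}
    {W : VT T → M.E} {W' : VT T' → M'.E} (_ : PS M W) (_ : PS M' W') {Λ : Type} [Finite Λ]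
    {X : Λ → T} {X' : Λ → T'} (_ : Function.Injective X) (_ : Function.Injective X')
    (c : Fin n → VT Λ →₀ ℂ),
    φ.val (str M) (fun i => S M W X (c i)) = φ.val (str M') (fun i => S M' W' X' (c i)) := by
  induction φ with
  | re t =>
    intro T T' _ _ M M' W W' hW hW' Λ _ X X' hX hX' c
    show (M.τ (tval M _ t)).re = (M'.τ (tval M' _ t)).re
    rw [tval_S hW hX, tval_S hW' hX', S_trace hW hX, S_trace hW' hX']
  | im t =>
    intro T T' _ _ M M' W W' hW hW' Λ _ X X' hX hX' c
    show (M.τ (tval M _ t)).im = (M'.τ (tval M' _ t)).im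
    rw [tval_S hW hX, tval_S hW' hX', S_trace hW hX, S_trace hW' hX']
  | nrm t =>
    intro T T' _ _ M M' W W' hW hW' Λ _ X X' hX hX' c
    show n2 M.τ (tval M _ t) = n2 M'.τ (tval M' _ t)
    rw [tval_S hW hX, tval_S hW' hX', n2_S hW hX, n2_S hW' hX']
  | @conn n k u φ ih =>
    intro T T' _ _ M M' W W' hW hW' Λ _ X X' hX hX' c
    simp only [Fm.val]
    congr 1
    funext i
    exact ih i hW hW' hX hX' c
  | @sup n r φ ih =>
    have half : ∀ {T T' : Type} [Infinite T] [Infinite T'] {M M' : TVN}
        {W : VT T → M.E} {W' : VT T' → M'.E} (_ : PS M W) (_ : PS M' W') {Λ : Type} [Finite Λ]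
        {X : Λ → T} {X' : Λ → T'} (_ : Function.Injective X) (_ : Function.Injective X')
        (c : Fin n → VT Λ →₀ ℂ),
        (Fm.sup r φ).val (str M) (fun i => S M W X (c i)) ≤
          (Fm.sup r φ).val (str M') (fun i => S M' W' X' (c i)) := by
      intro T T' _ _ M M' W W' hW hW' Λ _ X X' hX hX' c
      classical
      have := Fintype.ofFinite Λ
      refine sup_le φ r M _ _ fun y hy => ?_
      refine le_of_forall_pos_le_add fun ε hε => ?_
      set R : ℝ := max r (∑ i, M.opNorm (S M W X (c i))) with hR
      obtain ⟨δ, hδ, huc⟩ := fm_uc φ R ε hε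
      obtain ⟨F, hF, d, hd1, hd2⟩ := approx hW y δ hδ (Finset.univ.image X)
      have hXF : ∀ l, X l ∈ F := fun l => hF (Finset.mem_image_of_mem _ (Finset.mem_univ l))
      obtain ⟨Y, hY, hYX⟩ := exists_ext X hX X' hX' F hXF
      set c' : Fin n → VT F →₀ ℂ := fun i =>
        (c i).mapDomain (Finsupp.mapDomain (fun l => (⟨X l, hXF l⟩ : F))) with hc'
      have e1 : (fun i => S M W X (c i)) = fun i => S M W (Subtype.val : F → T) (c' i) := by
        funext i
        exact S_comp _ _ _ (fun _ => rfl)
      have e2 : (fun i => S M' W' X' (c i)) = fun i => S M' W' Y (c' i) := by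
        funext i
        exact S_comp _ _ _ hYX
      set y₀ := S M W (Subtype.val : F → T) d with hy₀
      set y₀' := S M' W' Y d with hy₀'
      have h1 : M'.opNorm y₀' ≤ r :=
        (op_S_le hW' hW hY Subtype.val_injective d).trans (hd2.trans hy)
      have h2 := le_sup φ r M' (fun i => S M' W' X' (c i)) y₀' h1
      have h3 : φ.val (str M) (Fin.cons y₀ fun i => S M W X (c i)) =
          φ.val (str M') (Fin.cons y₀' fun i => S M' W' X' (c i)) := by
        have h4 := ih hW hW' (X := (Subtype.val : F → T)) (X' := Y) Subtype.val_injective hY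
          (Fin.cons d c')
        have e3 : (fun i => S M W (Subtype.val : F → T) ((Fin.cons d c' : Fin (n + 1) → _) i)) =
            (Fin.cons y₀ fun i => S M W X (c i)) := by
          rw [e1]
          funext i
          refine Fin.cases rfl (fun j => rfl) i
        have e4 : (fun i => S M' W' Y ((Fin.cons d c' : Fin (n + 1) → _) i)) =
            (Fin.cons y₀' fun i => S M' W' X' (c i)) := by
          rw [e2]
          funext i
          refine Fin.cases rfl (fun j => rfl) i
        rw [e3, e4] at h4
        exact h4
      have hb : ∀ j, M.opNorm (S M W X (c j)) ≤ R := fun j =>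
        (Finset.single_le_sum (f := fun i => M.opNorm (S M W X (c i)))
          (fun i _ => op_nonneg M _) (Finset.mem_univ j)).trans (le_max_right _ _)
      have h5 : |φ.val (str M) (Fin.cons y fun i => S M W X (c i)) -
          φ.val (str M) (Fin.cons y₀ fun i => S M W X (c i))| ≤ ε :=
        huc M (Fin.cons y fun i => S M W X (c i)) (Fin.cons y₀ fun i => S M W X (c i))
          (fun i => by
            refine Fin.cases ?_ (fun j => ?_) i
            · exact hy.trans (le_max_left _ _)
            · exact hb j) (fun i => by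
            refine Fin.cases ?_ (fun j => ?_) i
            · exact (hd2.trans hy).trans (le_max_left _ _)
            · exact hb j) (fun i => by
            refine Fin.cases ?_ (fun j => ?_) i
            · exact hd1.le
            · show n2 M.τ (S M W X (c j) - S M W X (c j)) ≤ δ
              rw [sub_self, M.trAlg.n2_zero]
              exact hδ.le)
      have h6 := (abs_le.1 h5).2
      linarith
    intro T T' _ _ M M' W W' hW hW' Λ _ X X' hX hX' c
    exact le_antisymm (half hW hW' hX hX' c) (half hW' hW hX' hX c)
  | @inf n r φ ih =>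
    have half : ∀ {T T' : Type} [Infinite T] [Infinite T'] {M M' : TVN}
        {W : VT T → M.E} {W' : VT T' → M'.E} (_ : PS M W) (_ : PS M' W') {Λ : Type} [Finite Λ]
        {X : Λ → T} {X' : Λ → T'} (_ : Function.Injective X) (_ : Function.Injective X')
        (c : Fin n → VT Λ →₀ ℂ),
        (Fm.inf r φ).val (str M') (fun i => S M' W' X' (c i)) ≤
          (Fm.inf r φ).val (str M) (fun i => S M W X (c i)) := by
      intro T T' _ _ M M' W W' hW hW' Λ _ X X' hX hX' c
      classical
      have := Fintype.ofFinite Λ
      refine le_inf φ r M _ _ fun y hy => ?_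
      refine le_of_forall_pos_le_add fun ε hε => ?_
      set R : ℝ := max r (∑ i, M.opNorm (S M W X (c i))) with hR
      obtain ⟨δ, hδ, huc⟩ := fm_uc φ R ε hε
      obtain ⟨F, hF, d, hd1, hd2⟩ := approx hW y δ hδ (Finset.univ.image X)
      have hXF : ∀ l, X l ∈ F := fun l => hF (Finset.mem_image_of_mem _ (Finset.mem_univ l))
      obtain ⟨Y, hY, hYX⟩ := exists_ext X hX X' hX' F hXF
      set c' : Fin n → VT F →₀ ℂ := fun i =>
        (c i).mapDomain (Finsupp.mapDomain (fun l => (⟨X l, hXF l⟩ : F))) with hc'
      have e1 : (fun i => S M W X (c i)) = fun i => S M W (Subtype.val : F → T) (c' i) := by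
        funext i
        exact S_comp _ _ _ (fun _ => rfl)
      have e2 : (fun i => S M' W' X' (c i)) = fun i => S M' W' Y (c' i) := by
        funext i
        exact S_comp _ _ _ hYX
      set y₀ := S M W (Subtype.val : F → T) d with hy₀
      set y₀' := S M' W' Y d with hy₀'
      have h1 : M'.opNorm y₀' ≤ r :=
        (op_S_le hW' hW hY Subtype.val_injective d).trans (hd2.trans hy)
      have h2 := inf_le φ r M' (fun i => S M' W' X' (c i)) y₀' h1
      have h3 : φ.val (str M) (Fin.cons y₀ fun i => S M W X (c i)) =
          φ.val (str M') (Fin.cons y₀' fun i => S M' W' X' (c i)) := by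
        have h4 := ih hW hW' (X := (Subtype.val : F → T)) (X' := Y) Subtype.val_injective hY
          (Fin.cons d c')
        have e3 : (fun i => S M W (Subtype.val : F → T) ((Fin.cons d c' : Fin (n + 1) → _) i)) =
            (Fin.cons y₀ fun i => S M W X (c i)) := by
          rw [e1]
          funext i
          refine Fin.cases rfl (fun j => rfl) i
        have e4 : (fun i => S M' W' Y ((Fin.cons d c' : Fin (n + 1) → _) i)) =
            (Fin.cons y₀' fun i => S M' W' X' (c i)) := by
          rw [e2]
          funext i
          refine Fin.cases rfl (fun j => rfl) i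
        rw [e3, e4] at h4
        exact h4
      have hb : ∀ j, M.opNorm (S M W X (c j)) ≤ R := fun j =>
        (Finset.single_le_sum (f := fun i => M.opNorm (S M W X (c i)))
          (fun i _ => op_nonneg M _) (Finset.mem_univ j)).trans (le_max_right _ _)
      have h5 : |φ.val (str M) (Fin.cons y fun i => S M W X (c i)) -
          φ.val (str M) (Fin.cons y₀ fun i => S M W X (c i))| ≤ ε :=
        huc M (Fin.cons y fun i => S M W X (c i)) (Fin.cons y₀ fun i => S M W X (c i))
          (fun i => by
            refine Fin.cases ?_ (fun j => ?_) i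
            · exact hy.trans (le_max_left _ _)
            · exact hb j) (fun i => by
            refine Fin.cases ?_ (fun j => ?_) i
            · exact (hd2.trans hy).trans (le_max_left _ _)
            · exact hb j) (fun i => by
            refine Fin.cases ?_ (fun j => ?_) i
            · exact hd1.le
            · show n2 M.τ (S M W X (c j) - S M W X (c j)) ≤ δ
              rw [sub_self, M.trAlg.n2_zero]
              exact hδ.le)
      have h6 := (abs_le.1 h5).1
      linarith
    intro T T' _ _ M M' W W' hW hW' Λ _ X X' hX hX' c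
    exact le_antisymm (half hW' hW hX' hX c) (half hW hW' hX hX' c)

end Q199.BF
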