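import Mathlib
import Pool.Agent.H504R3.SDefs

/-!
# Types, dividing and simplicity in the continuous logic of tracial von Neumann algebras

The structures `Str`, the formulas `Fm`, their values and elementary equivalence are those of
`Pool.Agent.H504R3.SDefs`.
-/

set_option autoImplicit false

namespace Q199.BF

open Pool.Agent.H504R3.S

/-- `f` is an elementary embedding of `M` in `N`: all formulas have the same values. -/
def IsElem (M N : Str) (f : M.carrier → N.carrier) : Prop :=
  ∀ (n : ℕ) (φ : Fm n) (x : Fin n → M.carrier), φ.val N (fun i => f (x i)) = φ.val M x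

/-- A formula `θ(x, y)` in the variables `x 0, …, x (n - 1)`, with finitely many further variables
in which the parameters with the names `e 0, …, e (m - 1)` from `ι` are put. -/
structure PFm (n : ℕ) (ι : Type) where
  /-- the number of parameters -/
  m : ℕ
  /-- the formula -/
  φ : Fm (n + m)
  /-- the names of the parameters -/
  e : Fin m → ι

/-- The value of `θ(x, b)` in `N` when the parameters are given by `b`. -/
noncomputable def PFm.val (N : Str) {n : ℕ} {ι : Type} (b : ι → N.carrier) (θ : PFm n ι)
    (x : Fin n → N.carrier) : ℝ :=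
  θ.φ.val N (Fin.append x (fun s => b (θ.e s)))

/-- Let `p` assign a real number to every formula with parameters. The union over `i : κ` of the
sets of conditions `p(x, c i) = {θ(x, c i) = p θ}` is consistent: finitely many of these conditions
can be satisfied in `N` up to `ε`, for every `ε > 0`, by a tuple `x` in the ball of radius `r`.
(By compactness this means that they are satisfied by a tuple in an elementary extension.) -/
def Consistent (N : Str) {ι κ : Type} (c : κ → ι → N.carrier) {n : ℕ} (r : ℕ)
    (p : PFm n ι → ℝ) : Prop :=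
  ∀ (F : Finset (κ × PFm n ι)) (ε : ℝ), 0 < ε →
    ∃ x : Fin n → N.carrier, (∀ i, N.nrm (x i) ≤ r) ∧ ∀ q ∈ F, |q.2.val N (c q.1) x - p q.2| < ε

/-- `p` is a (complete) `n`-type over the set `B` of elements of `M`, in the sort of the ball of
radius `r`. -/
def IsType (M : Str) (B : Set M.carrier) {n : ℕ} (r : ℕ) (p : PFm n B → ℝ) : Prop :=
  Consistent M (fun (_ : Unit) (b : B) => b.1) r p

/-- The sequence `c 0, c 1, …` of `ι`-tuples in `N` is indiscernible over the set `A`: for every
formula with parameters in `A` its values at finitely many coordinates of `c (i 0), …, c (i (k-1))`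
and at the same coordinates of `c (j 0), …, c (j (k-1))` agree, for all `i 0 < … < i (k-1)` and
`j 0 < … < j (k-1)`. -/
def Indiscernible (N : Str) (A : Set N.carrier) {ι : Type} (c : ℕ → ι → N.carrier) : Prop :=
  ∀ (k m l : ℕ) (φ : Fm (m + l)) (q : Fin m → Fin k) (e : Fin m → ι) (a : Fin l → N.carrier),
    (∀ s, a s ∈ A) → ∀ i j : Fin k → ℕ, StrictMono i → StrictMono j →
      φ.val N (Fin.append (fun s => c (i (q s)) (e s)) a) =
      φ.val N (Fin.append (fun s => c (j (q s)) (e s)) a)

/-- The type `p` over `B ⊆ M` divides over `A`: in some elementary extension `N` of `M` there is a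
sequence `c 0, c 1, …` which is indiscernible over `A`, such that `c 0` is (the enumeration of) `B`
and the union of the `p(x, c i)` is inconsistent. -/
def Divides (M : Str) (B : Set M.carrier) {n : ℕ} (r : ℕ) (p : PFm n B → ℝ)
    (A : Set M.carrier) : Prop :=
  ∃ (N : Str) (f : M.carrier → N.carrier) (c : ℕ → B → N.carrier), N.IsTVN ∧ IsElem M N f ∧
    (∀ b : B, c 0 b = f b.1) ∧ Indiscernible N (f '' A) c ∧ ¬ Consistent N c r p

/-- `A` is separable: it has a countable 2-norm dense subset. -/
def IsSepSet (M : Str) (A : Set M.carrier) : Prop :=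
  ∃ D ⊆ A, D.Countable ∧ ∀ a ∈ A, ∀ ε : ℝ, 0 < ε → ∃ d ∈ D, M.norm2 (M.sub a d) < ε

/-- The theory of `R` is simple: for every model `M` of it, every set `B ⊆ M` and every type `p`
over `B` there is a separable set `A ⊆ B` over which `p` does not divide. -/
def HasSimpleTheory (R : Str) : Prop :=
  ∀ M : Str, M.IsTVN → M.ElemEq R → ∀ (B : Set M.carrier) (n r : ℕ) (p : PFm n B → ℝ),
    IsType M B r p → ∃ A ⊆ B, IsSepSet M A ∧ ¬ Divides M B r p A

end Q199.BF
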