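import Mathlib
import Pool.Agent.Q199.BF.BFm
import Pool.Agent.H146R2.SD.HYP
import Pool.Agent.H146R2.SD.EXW

/-!
Existence of generating systems of Pauli strings: the hyperfinite factor, and arbitrary index sets.
-/

set_option autoImplicit false
set_option linter.unusedSectionVars false

open scoped InnerProductSpace

namespace Q199.BF

open Pool.Agent.H504R3.S
open Pool.Agent.H504R3 (TVN n2_smul)
open Pool.Agent.Helper278 (n2 n2_nonneg TrAlg Elt)
open Pool.Agent.Helper436.SM (sg sg_add sg_mul_self norm_sg star_sg)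

theorem ps_of_hyp (R : TVN) (h : R.IsHyperfinite) : ∃ W : VT ℕ → R.E, PS R W := by
  obtain ⟨j, hc, hd⟩ := h
  have hP := Pool.Agent.H504R3.pauliSys hc R.trAlg
  refine ⟨Pool.Agent.H504R3.Ws j, hP.zero, fun v w => hP.mul v w, fun v => hP.star v,
    fun v hv => ?_, fun x ε hε => ?_⟩
  · rw [hP.trace, if_neg hv]
  · obtain ⟨y, hy, hyx⟩ := hd x ε hε
    obtain ⟨F, c, rfl⟩ := Pool.Agent.H504R3.adjoin_le hc y hy
    refine ⟨∑ t ∈ F, Finsupp.single t (c t), ?_⟩
    rw [map_sum]
    simp only [Finsupp.linearCombination_single]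
    exact hyx

open Pool.Agent.H146R2.SD

/-- the half -/
noncomputable def hf2 : ZMod 2 →+ TT := ZMod.toAddCircle

theorem e_hf2 (a : ZMod 2) : e (hf2 a) = sg a := by
  have h01 : a = 0 ∨ a = 1 := by
    revert a
    decide
  rcases h01 with rfl | rfl
  · rw [map_zero, e_zero]
    simp [sg]
  · have h1 : hf2 1 = ((1 / 2 : ℝ) : TT) := by
      have h2 := ZMod.toAddCircle_apply (1 : ZMod 2)
      show ZMod.toAddCircle (1 : ZMod 2) = _
      rw [h2, ZMod.val_one]
      norm_num
    rw [h1]
    have h3 : (AddCircle.toCircle ((1 / 2 : ℝ) : TT) : ℂ) = -1 := by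
      rw [AddCircle.toCircle_apply_mk, Circle.coe_exp]
      have h4 : ((2 * Real.pi / 1 * (1 / 2) : ℝ) : ℂ) * Complex.I = Real.pi * Complex.I := by
        congr 1
        push_cast
        ring
      rw [h4, Complex.exp_pi_mul_I]
    show (AddCircle.toCircle ((1 / 2 : ℝ) : TT) : ℂ) = sg 1
    rw [h3]
    simp [sg]

/-- the cocycle -/
theorem exists_beta (T : Type) : ∃ β : (VT T) →+ (VT T) →+ TT, ∀ v w, e (β v w) = sg (bt v w) := by
  refine ⟨AddMonoidHom.mk' (fun p => AddMonoidHom.mk' (fun q => hf2 (bt p q)) ?_) ?_,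
    fun v w => e_hf2 _⟩
  · intro q q'
    show hf2 (bt p (q + q')) = _
    rw [bt_add_right, map_add]
  · intro p p'
    refine DFunLike.ext _ _ fun q => ?_
    show hf2 (bt (p + p') q) = hf2 (bt p q) + hf2 (bt p' q)
    rw [bt_add_left, map_add]

/-- the infinite tensor product of copies of the `2 × 2` matrices indexed by `T` -/
theorem exists_ps (T : Type) : ∃ (M : TVN) (W : VT T → M.E), PS M W := by
  classical
  obtain ⟨β, hβ⟩ := exists_beta T
  obtain ⟨H, i1, i2, i3, N, T0, W, hW⟩ := exists_weyl (VT T) β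
  let M : TVN := { H := H, N := N, τ := T0.τ, map_one := T0.map_one, tracial := T0.tracial,
                   faithful := T0.faithful, normal := T0.normal }
  have hτ : TrAlg T0.τ := M.trAlg
  refine ⟨M, W, hW.zero, fun v w => ?_, fun v => ?_, hW.trace, fun x ε hε => ?_⟩
  · rw [← hβ]
    exact hW.mul v w
  · rw [← hβ]
    have h1 := hyp_star hW v
    have h2 : -v = v := by
      rw [neg_eq_iff_add_eq_zero]
      exact vt_add_self v
    rw [h2] at h1
    exact h1
  · have hp := hW.parseval x
    have h1 : ∀ᶠ F in (SummationFilter.unconditional (VT T)).filter,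
        n2 T0.τ x ^ 2 - ε ^ 2 < ∑ v ∈ F, ‖T0.τ (star (W v) * x)‖ ^ 2 :=
      Filter.Tendsto.eventually_const_lt (by have := pow_pos hε 2; linarith) hp
    obtain ⟨F, hF⟩ := h1.exists
    refine ⟨∑ v ∈ F, Finsupp.single v (T0.τ (star (W v) * x)), ?_⟩
    rw [map_sum]
    simp only [Finsupp.linearCombination_single]
    have h2 := hyp_expand hW hτ x F
    have h3 : n2 T0.τ (x - ∑ v ∈ F, T0.τ (star (W v) * x) • W v) ^ 2 < ε ^ 2 := by
      rw [h2]; linarith
    exact lt_of_pow_lt_pow_left₀ 2 hε.le h3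

/-- The infinite tensor product over an infinite index set is elementarily equivalent to the
hyperfinite factor. -/
theorem elemEq {T T' : Type} [Infinite T] [Infinite T'] {M M' : TVN} {W : VT T → M.E}
    {W' : VT T' → M'.E} (hW : PS M W) (hW' : PS M' W') : (str M).ElemEq (str M') := by
  intro φ
  have h := bf φ hW hW' (Λ := Empty) (X := fun e => e.elim) (X' := fun e => e.elim)
    (fun e => e.elim) (fun e => e.elim) (fun i => i.elim0)
  have e1 : (fun i : Fin 0 => S M W (fun e : Empty => e.elim)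
      ((fun i : Fin 0 => (i.elim0 : VT Empty →₀ ℂ)) i)) = Fin.elim0 := funext fun i => i.elim0
  have e2 : (fun i : Fin 0 => S M' W' (fun e : Empty => e.elim)
      ((fun i : Fin 0 => (i.elim0 : VT Empty →₀ ℂ)) i)) = Fin.elim0 := funext fun i => i.elim0
  rw [e1, e2] at h
  exact h

end Q199.BF
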