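import Mathlib
import Pool.Agent.Q199.BF.Sys
import Pool.Agent.H504R3.PauliM

/-!
Flips of tensor factors, and the projections of the factors.
-/

set_option autoImplicit false
set_option linter.unusedSectionVars false

open scoped InnerProductSpace

namespace Q199.BF

open Pool.Agent.H504R3.S
open Pool.Agent.H504R3 (TVN n2_smul flip_alg flip_star_alg)
open Pool.Agent.Helper278 (n2 n2_nonneg TrAlg Elt)
open Pool.Agent.Helper436.SM (sg sg_add sg_mul_self norm_sg star_sg)

theorem bt_single {T : Type} [DecidableEq T] (s t : T) (a b : ZMod 2 × ZMod 2) :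
    bt (Finsupp.single s a) (Finsupp.single t b) = if s = t then a.2 * b.1 else 0 := by
  unfold bt
  rw [Finsupp.sum_single_index (by simp)]
  split_ifs with h
  · rw [h, Finsupp.single_eq_same]
  · rw [Finsupp.single_eq_of_ne h]
    simp

section

variable {T : Type} {M : TVN} {W : VT T → M.E} (hW : PS M W)

/-- the third Pauli matrix in the position `t` -/
noncomputable def Zp (W : VT T → M.E) (t : T) : M.E := W (Finsupp.single t (0, 1))

/-- the first Pauli matrix in the position `t` -/
noncomputable def Xp (W : VT T → M.E) (t : T) : M.E := W (Finsupp.single t (1, 0))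

include hW in
theorem comm_single {s t : T} (hst : s ≠ t) (a b : ZMod 2 × ZMod 2) :
    W (Finsupp.single s a) * W (Finsupp.single t b) =
      W (Finsupp.single t b) * W (Finsupp.single s a) := by
  classical
  rw [hW.mul, hW.mul, bt_single, bt_single, if_neg hst, if_neg hst.symm, add_comm]

include hW in
theorem zz (t : T) : Zp W t * Zp W t = 1 := by
  classical
  unfold Zp
  rw [hW.mul, bt_single, vt_add_self, hW.zero]
  simp [sg]

include hW in
theorem xx (t : T) : Xp W t * Xp W t = 1 := by
  classical
  unfold Xp
  rw [hW.mul, bt_single, vt_add_self, hW.zero]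
  simp [sg]

include hW in
theorem zx (t : T) : Zp W t * Xp W t = -(Xp W t * Zp W t) := by
  classical
  unfold Xp Zp
  rw [hW.mul, hW.mul, bt_single, bt_single, add_comm]
  simp [sg]

include hW in
theorem star_Z (t : T) : star (Zp W t) = Zp W t := by
  classical
  unfold Zp
  rw [hW.star, bt_single]
  simp [sg]

include hW in
theorem star_X (t : T) : star (Xp W t) = Xp W t := by
  classical
  unfold Xp
  rw [hW.star, bt_single]
  simp [sg]

include hW in
theorem exists_flip {s t : T} (hst : s ≠ t) : ∃ u : M.E, star u * u = 1 ∧ u * star u = 1 ∧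
    u * Zp W s = Zp W t * u ∧ ∀ r, r ≠ s → r ≠ t → u * Zp W r = Zp W r * u := by
  set x := Xp W s with hx
  set z := Zp W s with hz
  set x' := Xp W t with hx'
  set z' := Zp W t with hz'
  have c1 : x' * x = x * x' := comm_single hW hst.symm _ _
  have c2 : x' * z = z * x' := comm_single hW hst.symm _ _
  have c3 : z' * x = x * z' := comm_single hW hst.symm _ _
  have c4 : z' * z = z * z' := comm_single hW hst.symm _ _
  obtain ⟨h1, h2, h3⟩ := flip_alg (xx hW s) (zz hW s) (zx hW s) (xx hW t) (zz hW t) (zx hW t)
    c1 c2 c3 c4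
  have h4 := flip_star_alg (zx hW s) (zx hW t) c1 c2 c3 c4
  rw [← hx, ← hz, ← hx', ← hz'] at h1 h2 h3 h4
  set f : M.E := 1 + x * x' + z * z' - x * z * x' * z' with hf
  have hsf : star f = f := by
    have e1 : star (x * x') = x * x' := by rw [star_mul, star_X hW, star_X hW]; exact c1
    have e2 : star (z * z') = z * z' := by rw [star_mul, star_Z hW, star_Z hW]; exact c4
    have e3 : star (x * z * x' * z') = x * z * x' * z' := by
      rw [star_mul, star_mul, star_mul, star_X hW, star_X hW, star_Z hW, star_Z hW]
      exact h4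
    rw [hf, star_sub, star_add, star_add, e1, e2, e3, star_one]
  have hsu : star ((2⁻¹ : ℂ) • f) = (2⁻¹ : ℂ) • f := by
    rw [star_smul, hsf]
    congr 1
    simp
  have huu : ((2⁻¹ : ℂ) • f) * ((2⁻¹ : ℂ) • f) = 1 := by
    rw [smul_mul_smul_comm, h1, smul_smul]
    norm_num
  refine ⟨(2⁻¹ : ℂ) • f, by rw [hsu, huu], by rw [hsu, huu], ?_, ?_⟩
  · rw [smul_mul_assoc, h3, mul_smul_comm]
  · intro r hrs hrt
    have d1 : x * Zp W r = Zp W r * x := comm_single hW hrs.symm _ _
    have d2 : z * Zp W r = Zp W r * z := comm_single hW hrs.symm _ _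
    have d3 : x' * Zp W r = Zp W r * x' := comm_single hW hrt.symm _ _
    have d4 : z' * Zp W r = Zp W r * z' := comm_single hW hrt.symm _ _
    have e1 : Commute (Zp W r) f := by
      have a1 : Commute (Zp W r) x := d1.symm
      have a2 : Commute (Zp W r) z := d2.symm
      have a3 : Commute (Zp W r) x' := d3.symm
      have a4 : Commute (Zp W r) z' := d4.symm
      exact (((Commute.one_right _).add_right (a1.mul_right a3)).add_right
        (a2.mul_right a4)).sub_right (((a1.mul_right a2).mul_right a3).mul_right a4)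
    rw [smul_mul_assoc, mul_smul_comm, e1.eq]

/-- the projection of the position `t` -/
noncomputable def ev (W : VT T → M.E) (t : T) : M.E := (2⁻¹ : ℂ) • (1 + Zp W t)

theorem ev_comm {u : M.E} {s t : T} (h : u * Zp W s = Zp W t * u) :
    u * ev W s = ev W t * u := by
  unfold ev
  rw [mul_smul_comm, smul_mul_assoc, mul_add, add_mul, h, mul_one, one_mul]

include hW in
theorem star_ev (t : T) : star (ev W t) = ev W t := by
  unfold ev
  rw [star_smul, star_add, star_one, star_Z hW]
  congr 1
  simp

include hW in
theorem ev_idem (t : T) : ev W t * ev W t = ev W t := by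
  unfold ev
  rw [smul_mul_smul_comm, mul_add, add_mul, add_mul, zz hW, one_mul, mul_one, one_mul]
  module

include hW in
theorem tr_Z (t : T) : M.τ (Zp W t) = 0 := by
  classical
  refine hW.trace _ fun h => ?_
  have h1 := DFunLike.congr_fun h t
  rw [Finsupp.single_eq_same, Finsupp.zero_apply] at h1
  exact absurd h1 (by decide)

include hW in
theorem tr_ZZ {s t : T} (hst : s ≠ t) : M.τ (Zp W s * Zp W t) = 0 := by
  classical
  unfold Zp
  rw [hW.mul, map_smul, hW.trace, smul_zero]
  intro h
  have h1 := DFunLike.congr_fun h t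
  rw [Finsupp.add_apply, Finsupp.single_eq_same, Finsupp.single_eq_of_ne hst.symm, Finsupp.zero_apply] at h1
  exact absurd h1 (by decide)

include hW in
/-- the projections of different positions are far apart -/
theorem n2_ev {s t : T} (hst : s ≠ t) : n2 M.τ (ev W s - ev W t) ^ 2 = 1 / 2 := by
  rw [M.trAlg.n2_sq, star_sub, star_ev hW, star_ev hW]
  have e1 : (ev W s - ev W t) * (ev W s - ev W t) =
      (4⁻¹ : ℂ) • (Zp W s * Zp W s + Zp W t * Zp W t - Zp W s * Zp W t - Zp W t * Zp W s) := by
    have e2 : ev W s - ev W t = (2⁻¹ : ℂ) • (Zp W s - Zp W t) := by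
      unfold ev
      rw [← smul_sub]
      congr 1
      abel
    rw [e2, smul_mul_smul_comm]
    congr 1
    · norm_num
    · noncomm_ring
  rw [e1, map_smul, map_sub, map_sub, map_add, tr_ZZ hW hst, tr_ZZ hW hst.symm, zz hW, zz hW,
    M.map_one]
  norm_num

end

/-- unitaries that conjugate the projections `e (a, 0)` to the projections `e (a, ∞)`, for the
elements `a` of a finite set -/
theorem exists_u {I : Type} {M : TVN} {W : VT (I × Option ℕ) → M.E} (hW : PS M W)
    (F : Finset I) : ∃ u : M.E, star u * u = 1 ∧ u * star u = 1 ∧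
      (∀ a ∈ F, u * Zp W (a, some 0) = Zp W (a, none) * u) ∧
      ∀ a ∉ F, u * Zp W (a, some 0) = Zp W (a, some 0) * u ∧
        u * Zp W (a, none) = Zp W (a, none) * u := by
  classical
  induction F using Finset.induction_on with
  | empty => exact ⟨1, by simp, by simp, by simp, by simp⟩
  | insert b F hb ih =>
    obtain ⟨u, h1, h2, h3, h4⟩ := ih
    obtain ⟨f, g1, g2, g3, g4⟩ := exists_flip hW (s := (b, some 0)) (t := (b, none)) (by simp)
    refine ⟨f * u, ?_, ?_, ?_, ?_⟩
    · rw [star_mul]
      calc star u * star f * (f * u) = star u * (star f * f) * u := by simp only [mul_assoc]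
        _ = 1 := by rw [g1, mul_one, h1]
    · rw [star_mul]
      calc f * u * (star u * star f) = f * (u * star u) * star f := by simp only [mul_assoc]
        _ = 1 := by rw [h2, mul_one, g2]
    · intro a ha
      rcases Finset.mem_insert.1 ha with rfl | ha
      · rw [mul_assoc, (h4 a hb).1, ← mul_assoc, g3, mul_assoc]
      · have hab : a ≠ b := fun h => hb (h ▸ ha)
        rw [mul_assoc, h3 a ha, ← mul_assoc, g4 _ (by simp) (by simp [hab]), mul_assoc]
    · intro a ha
      rw [Finset.mem_insert, not_or] at ha
      obtain ⟨k1, k2⟩ := h4 a ha.2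
      constructor
      · rw [mul_assoc, k1, ← mul_assoc, g4 _ (by simp [ha.1]) (by simp), mul_assoc]
      · rw [mul_assoc, k2, ← mul_assoc, g4 _ (by simp) (by simp [ha.1]), mul_assoc]

end Q199.BF
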