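import Mathlib
import Pool.Agent.Q199.BF.Defs
import Pool.Agent.Q199.BF.Ex
import Pool.Agent.Q199.BF.Flip

/-!
The theory of the hyperfinite II_1 factor is not simple.
-/

set_option autoImplicit false
set_option linter.unusedSectionVars false

open scoped InnerProductSpace

namespace Q199.BF

open Pool.Agent.H504R3.S
open Pool.Agent.H504R3 (TVN n2_smul)
open Pool.Agent.Helper278 (n2 n2_nonneg TrAlg Elt)
open Pool.Agent.Helper436.SM (sg sg_add sg_mul_self norm_sg star_sg)

theorem op_unitary (M : TVN) {u : M.E} (h : star u * u = 1) : M.opNorm u ≤ 1 := by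
  have h1 : M.opNorm u * M.opNorm u = M.opNorm (star u * u) :=
    (CStarRing.norm_star_mul_self (x := (u : M.H →L[ℂ] M.H))).symm
  have h2 := op_one M
  rw [← h, ← h1] at h2
  have h3 := op_nonneg M u
  nlinarith

section

variable {T : Type} {M : TVN} {W : VT T → M.E} (hW : PS M W)

include hW in
theorem op_ev (t : T) : M.opNorm (ev W t) ≤ 1 := by
  have h1 : M.opNorm (Zp W t) ≤ 1 := op_unitary M (by rw [star_Z hW, zz hW])
  unfold ev
  rw [op_smul]
  have h2 := op_add M 1 (Zp W t)
  have h3 := op_one M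
  rw [norm_inv]
  have h4 : ‖(2 : ℂ)‖ = 2 := by norm_num
  rw [h4]
  linarith

include hW in
theorem ev_close {s t : T} (h : n2 M.τ (ev W s - ev W t) < 1 / 2) : s = t := by
  by_contra hne
  have h1 := n2_ev hW hne
  have h2 := n2_nonneg M.τ (ev W s - ev W t)
  nlinarith

include hW in
theorem ev_inj : Function.Injective (ev W) := by
  intro s t hst
  refine ev_close hW ?_
  rw [hst, sub_self, M.trAlg.n2_zero]
  norm_num

/-- the coefficients of the projection -/
noncomputable def ce {Λ : Type} (l : Λ) : VT Λ →₀ ℂ :=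
  Finsupp.single 0 2⁻¹ + Finsupp.single (Finsupp.single l (0, 1)) 2⁻¹

include hW in
theorem S_ce {Λ : Type} (X : Λ → T) (l : Λ) : S M W X (ce l) = ev W (X l) := by
  unfold ce ev Zp
  rw [map_add, S_single, S_single, Finsupp.mapDomain_zero, hW.zero, Finsupp.mapDomain_single,
    smul_add]

include hW in
/-- The values of formulas at the projections depend only on the pattern of the positions. -/
theorem pattern [Infinite T] {n : ℕ} (φ : Fm n) (X X' : Fin n → T)
    (h : ∀ s s', X s = X s' ↔ X' s = X' s') :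
    φ.val (str M) (fun s => ev W (X s)) = φ.val (str M) (fun s => ev W (X' s)) := by
  classical
  let Λ : Type := Set.range X
  let Y : Λ → T := fun l => X' l.2.choose
  have hY : Function.Injective Y := by
    intro l l' hl
    have h1 := (h _ _).2 hl
    rw [l.2.choose_spec, l'.2.choose_spec] at h1
    exact Subtype.ext h1
  have h1 := bf φ hW hW (Λ := Λ) (X := Subtype.val) (X' := Y) Subtype.val_injective hY
    (fun s => ce (⟨X s, s, rfl⟩ : Λ))
  have e1 : (fun s : Fin n => S M W (Subtype.val : Λ → T) (ce (⟨X s, s, rfl⟩ : Λ))) =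
      fun s => ev W (X s) := by
    funext s
    rw [S_ce hW]
  have e2 : (fun s : Fin n => S M W Y (ce (⟨X s, s, rfl⟩ : Λ))) = fun s => ev W (X' s) := by
    funext s
    rw [S_ce hW]
    congr 1
    refine (h _ _).1 ?_
    exact (⟨X s, s, rfl⟩ : Λ).2.choose_spec
  rw [e1, e2] at h1
  exact h1

end

section main

variable {I : Type} {M : TVN} {W : VT (I × Option ℕ) → M.E} (hW : PS M W)

/-- the set of the projections in the positions `(a, 0)` and `(a, ∞)` -/
def BB (W : VT (I × Option ℕ) → M.E) : Set M.E :=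
  {y | ∃ t : I × Option ℕ, (t.2 = some 0 ∨ t.2 = none) ∧ y = ev W t}

/-- the position -/
noncomputable def pos {y : M.E} (h : y ∈ BB W) : I × Option ℕ := h.choose

theorem pos_spec {y : M.E} (h : y ∈ BB W) : ((pos h).2 = some 0 ∨ (pos h).2 = none) ∧
    y = ev W (pos h) := h.choose_spec

/-- the first projection as an element of `B` -/
noncomputable def b0 (W : VT (I × Option ℕ) → M.E) (a : I) : BB W :=
  ⟨ev W (a, some 0), (a, some 0), Or.inl rfl, rfl⟩

/-- the second projection as an element of `B` -/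
noncomputable def bi (W : VT (I × Option ℕ) → M.E) (a : I) : BB W :=
  ⟨ev W (a, none), (a, none), Or.inr rfl, rfl⟩

include hW in
theorem pos_b0 (a : I) : pos (b0 W a).2 = (a, some 0) :=
  (ev_inj hW (pos_spec (b0 W a).2).2).symm

include hW in
theorem pos_bi (a : I) : pos (bi W a).2 = (a, none) :=
  (ev_inj hW (pos_spec (bi W a).2).2).symm

/-- the formula `‖x* f x - e‖₂` -/
def fml : Fm (1 + 2) :=
  .nrm (.add (.mul (.mul (.adj (.var (Fin.castAdd 2 0))) (.var (Fin.natAdd 1 0)))
    (.var (Fin.castAdd 2 0))) (.scal (-1) (.var (Fin.natAdd 1 1))))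

/-- the formula with parameters -/
noncomputable def th (W : VT (I × Option ℕ) → M.E) (a : I) : PFm 1 (BB W) :=
  ⟨2, fml, ![bi W a, b0 W a]⟩

theorem th_val (a : I) (c : BB W → M.E) (x : Fin 1 → M.E) :
    (th W a).val (str M) c x = n2 M.τ (star (x 0) * c (bi W a) * x 0 - c (b0 W a)) := by
  show n2 M.τ (star (Fin.append x (fun s => c (![bi W a, b0 W a] s)) (Fin.castAdd 2 0)) *
    Fin.append x (fun s => c (![bi W a, b0 W a] s)) (Fin.natAdd 1 0) *
    Fin.append x (fun s => c (![bi W a, b0 W a] s)) (Fin.castAdd 2 0) +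
    (-1 : ℂ) • Fin.append x (fun s => c (![bi W a, b0 W a] s)) (Fin.natAdd 1 1)) = _
  rw [Fin.append_left, Fin.append_right, Fin.append_right, neg_one_smul, ← sub_eq_add_neg]
  rfl

include hW in
/-- the type -/
theorem exists_type : ∃ p : PFm 1 (BB W) → ℝ, IsType (str M) (BB W) 1 p ∧
    ∀ a, p (th W a) = 0 := by
  classical
  choose u h1 h2 h3 h4 using fun F : Finset I => exists_u hW F
  let U : Ultrafilter (Finset I) := Ultrafilter.of Filter.atTop
  have hU : (U : Filter (Finset I)) ≤ Filter.atTop := Ultrafilter.of_le _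
  let v : PFm 1 (BB W) → Finset I → ℝ := fun θ F =>
    θ.val (str M) (fun b => b.1) (fun _ => u F)
  have hlim : ∀ θ, ∃ l : ℝ, Filter.Tendsto (v θ) U (nhds l) := by
    intro θ
    obtain ⟨C, _, hC⟩ := fm_bdd θ.φ 1
    have hb : ∀ F, v θ F ∈ Set.Icc (-C) C := by
      intro F
      refine abs_le.1 (hC M (Fin.append (fun _ => u F) (fun s => (θ.e s).1) :
        Fin (1 + θ.m) → M.E) fun s => ?_)
      refine Fin.addCases (fun s => ?_) (fun s => ?_) s
      · rw [Fin.append_left]
        exact op_unitary M (h1 F)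
      · rw [Fin.append_right]
        have h5 := (pos_spec (θ.e s).2).2
        rw [h5]
        exact op_ev hW _
    obtain ⟨l, _, hl⟩ := (isCompact_Icc : IsCompact (Set.Icc (-C) C)).ultrafilter_le_nhds
      (U.map (v θ)) (Filter.le_principal_iff.2 (Filter.mem_map.2 (Filter.univ_mem' hb)))
    exact ⟨l, hl⟩
  choose p hp using hlim
  refine ⟨p, ?_, fun a => ?_⟩
  · intro F ε hε
    have h5 : ∀ᶠ G in (U : Filter (Finset I)), ∀ q ∈ F, |v q.2 G - p q.2| < ε := by
      rw [Filter.eventually_all_finset]
      intro q _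
      have h6 := (hp q.2).sub_const (p q.2)
      rw [sub_self] at h6
      have h7 := h6.abs
      rw [abs_zero] at h7
      exact h7.eventually_lt_const hε
    obtain ⟨G, hG⟩ := h5.exists
    refine ⟨fun _ => u G, fun _ => ?_, hG⟩
    rw [Nat.cast_one]
    exact op_unitary M (h1 G)
  · refine tendsto_nhds_unique (hp (th W a)) ?_
    refine Filter.Tendsto.congr' ?_ tendsto_const_nhds
    have h5 : ∀ᶠ G in (U : Filter (Finset I)), a ∈ G :=
      hU ((Filter.eventually_ge_atTop {a}).mono fun G hG => hG (Finset.mem_singleton_self a))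
    refine h5.mono fun G hG => ?_
    show 0 = (th W a).val (str M) (fun b => b.1) (fun _ => u G)
    rw [th_val]
    have h6 : u G * ev W (a, some 0) = ev W (a, none) * u G := ev_comm (h3 G a hG)
    have h7 : star (u G) * ev W (a, none) * u G = ev W (a, some 0) := by
      rw [mul_assoc, ← h6, ← mul_assoc, h1, one_mul]
    show 0 = n2 M.τ (star (u G) * ev W (a, none) * u G - ev W (a, some 0))
    rw [h7, sub_self, M.trAlg.n2_zero]

open Classical in
/-- the moved positions -/
noncomputable def mv (b : I) (n : ℕ) (t : I × Option ℕ) : I × Option ℕ :=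
  if t = (b, some 0) then (b, some n) else t

theorem mv_zero (b : I) (t : I × Option ℕ) : mv b 0 t = t := by
  unfold mv
  split_ifs with h
  · exact h.symm
  · rfl

theorem mv_same (b : I) (n : ℕ) : mv b n (b, some 0) = (b, some n) := if_pos rfl

theorem mv_ne (b : I) (n : ℕ) {t : I × Option ℕ} (h : t ≠ (b, some 0)) : mv b n t = t := if_neg h

theorem mv_pattern (b : I) (n n' m m' : ℕ) (hn : n = n' ↔ m = m') {t t' : I × Option ℕ}
    (ht : t.2 = some 0 ∨ t.2 = none) (ht' : t'.2 = some 0 ∨ t'.2 = none) :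
    mv b n t = mv b n' t' ↔ mv b m t = mv b m' t' := by
  by_cases h1 : t = (b, some 0)
  · by_cases h2 : t' = (b, some 0)
    · rw [h1, h2, mv_same, mv_same, mv_same, mv_same]
      simp [hn]
    · rw [h1, mv_same, mv_same, mv_ne _ _ h2, mv_ne _ _ h2]
      obtain ⟨a, o⟩ := t'
      rcases ht' with h | h <;> simp only at h <;> subst h
      · have hab : ¬ b = a := fun h => h2 (by rw [h])
        simp [hab]
      · simp
  · by_cases h2 : t' = (b, some 0)
    · rw [h2, mv_same, mv_same, mv_ne _ _ h1, mv_ne _ _ h1]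
      obtain ⟨a, o⟩ := t
      rcases ht with h | h <;> simp only at h <;> subst h
      · have hab : ¬ a = b := fun h => h1 (by rw [h])
        simp [hab]
      · simp
    · rw [mv_ne _ _ h1, mv_ne _ _ h2, mv_ne _ _ h1, mv_ne _ _ h2]

/-- the sequence -/
noncomputable def cc (W : VT (I × Option ℕ) → M.E) (b : I) (n : ℕ) (x : BB W) : M.E :=
  ev W (mv b n (pos x.2))

include hW in
theorem indisc [Infinite I] (b : I) (A : Set M.E) (hA : A ⊆ BB W)
    (hb : ∀ x (hx : x ∈ A), (pos (hA hx)).1 ≠ b) :
    Indiscernible (str M) A (cc W b) := by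
  intro k m l φ q e a ha i j hi hj
  let P : Fin l → I × Option ℕ := fun s => pos (hA (ha s))
  have hP : ∀ s n, P s = mv b n (P s) := fun s n => by
    rw [mv_ne]
    intro h
    exact hb _ (ha s) (by show (P s).1 = b; rw [h])
  have hP2 : ∀ s, (P s).2 = some 0 ∨ (P s).2 = none := fun s => (pos_spec (hA (ha s))).1
  let a' : Fin l → M.E := a
  have key : ∀ i : Fin k → ℕ, (Fin.append (fun s => cc W b (i (q s)) (e s)) a' :
      Fin (m + l) → M.E) = fun s => ev W ((Fin.append (fun s => mv b (i (q s)) (pos (e s).2)) P :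
        Fin (m + l) → I × Option ℕ) s) := by
    intro i
    funext s
    refine Fin.addCases (fun s => ?_) (fun s => ?_) s
    · rw [Fin.append_left, Fin.append_left]
      rfl
    · rw [Fin.append_right, Fin.append_right]
      exact (pos_spec (hA (ha s))).2
  show φ.val (str M) (Fin.append (fun s => cc W b (i (q s)) (e s)) a' : Fin (m + l) → M.E) =
    φ.val (str M) (Fin.append (fun s => cc W b (j (q s)) (e s)) a' : Fin (m + l) → M.E)
  rw [key i, key j]
  refine pattern hW φ _ _ fun s s' => ?_
  have hij : ∀ r r' : Fin k, i r = i r' ↔ j r = j r' := fun r r' => by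
    rw [hi.injective.eq_iff, hj.injective.eq_iff]
  refine Fin.addCases (fun s => ?_) (fun s => ?_) s
  · refine Fin.addCases (fun s' => ?_) (fun s' => ?_) s'
    · rw [Fin.append_left, Fin.append_left, Fin.append_left, Fin.append_left]
      exact mv_pattern b _ _ _ _ (hij _ _) (pos_spec (e s).2).1 (pos_spec (e s').2).1
    · rw [Fin.append_left, Fin.append_right, Fin.append_left, Fin.append_right]
      have h1 := mv_pattern b (i (q s)) (i (q s)) (j (q s)) (j (q s)) (by simp)
        (pos_spec (e s).2).1 (hP2 s')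
      rwa [← hP, ← hP] at h1
  · refine Fin.addCases (fun s' => ?_) (fun s' => ?_) s'
    · rw [Fin.append_left, Fin.append_right, Fin.append_left, Fin.append_right]
      have h1 := mv_pattern b (i (q s')) (i (q s')) (j (q s')) (j (q s')) (by simp)
        (hP2 s) (pos_spec (e s').2).1
      rwa [← hP, ← hP] at h1
    · rw [Fin.append_right, Fin.append_right, Fin.append_right, Fin.append_right]

include hW in
/-- the type divides over every separable subset -/
theorem divides [Uncountable I] (p : PFm 1 (BB W) → ℝ) (hp : ∀ a, p (th W a) = 0)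
    (A : Set M.E) (hA : A ⊆ BB W) (hs : IsSepSet (str M) A) :
    Divides (str M) (BB W) 1 p A := by
  classical
  obtain ⟨D, hDA, hDc, hD⟩ := hs
  have hAD : A ⊆ D := by
    intro x hx
    obtain ⟨d, hd, h1⟩ := hD x hx (1 / 2) (by norm_num)
    have h1' : n2 M.τ ((str M).sub x d : M.E) < 1 / 2 := h1
    have e0 : ((str M).sub x d : M.E) = x - (show M.E from d) := sub_eq M x d
    have e3 : (show M.E from d) = ev W (pos (hA (hDA hd))) := (pos_spec (hA (hDA hd))).2
    rw [e0, e3, (pos_spec (hA hx)).2] at h1'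
    have h2 := ev_close hW h1'
    rw [(pos_spec (hA hx)).2, h2, ← (pos_spec (hA (hDA hd))).2]
    exact hd
  have hAc : A.Countable := hDc.mono hAD
  obtain ⟨b, hb⟩ : ∃ b : I, ∀ x (hx : x ∈ A), (pos (hA hx)).1 ≠ b := by
    by_contra hcon
    push Not at hcon
    have h1 : (Set.univ : Set I).Countable := by
      have : Countable A := hAc.to_subtype
      have h2 : (Set.range fun x : A => (pos (hA x.2)).1).Countable := Set.countable_range _
      refine h2.mono fun b _ => ?_
      obtain ⟨x, hx, h3⟩ := hcon b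
      exact ⟨⟨x, hx⟩, h3⟩
    exact Set.not_countable_univ h1
  refine ⟨str M, fun x => x, cc W b, isTVN M, fun n φ x => rfl, fun x => ?_, ?_, ?_⟩
  · show ev W (mv b 0 (pos x.2)) = x.1
    rw [mv_zero]
    exact (pos_spec x.2).2.symm
  · have e0 : ((fun x : (str M).carrier => x) '' (A : Set (str M).carrier)) = A :=
      Set.image_id' _
    rw [e0]
    exact indisc hW b A hA hb
  · intro hc
    obtain ⟨x, _, hx⟩ := hc {(0, th W b), (1, th W b)} (1 / 4) (by norm_num)
    let x' : Fin 1 → M.E := x
    have g0 : |(th W b).val (str M) (cc W b 0) x - p (th W b)| < 1 / 4 :=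
      hx (0, th W b) (Finset.mem_insert_self _ _)
    have g1 : |(th W b).val (str M) (cc W b 1) x - p (th W b)| < 1 / 4 :=
      hx (1, th W b) (Finset.mem_insert_of_mem (Finset.mem_singleton_self _))
    rw [hp, sub_zero] at g0 g1
    have h0 : |n2 M.τ (star (x' 0) * cc W b 0 (bi W b) * x' 0 - cc W b 0 (b0 W b))| < 1 / 4 :=
      lt_of_le_of_lt (le_of_eq (congrArg abs (th_val b (cc W b 0) x').symm)) g0
    have h1 : |n2 M.τ (star (x' 0) * cc W b 1 (bi W b) * x' 0 - cc W b 1 (b0 W b))| < 1 / 4 :=
      lt_of_le_of_lt (le_of_eq (congrArg abs (th_val b (cc W b 1) x').symm)) g1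
    rw [abs_of_nonneg (n2_nonneg _ _)] at h0 h1
    have e1 : ∀ n, cc W b n (bi W b) = ev W (b, none) := fun n => by
      show ev W (mv b n (pos (bi W b).2)) = _
      rw [pos_bi hW, mv_ne]
      simp
    have e2 : ∀ n, cc W b n (b0 W b) = ev W (b, some n) := fun n => by
      show ev W (mv b n (pos (b0 W b).2)) = _
      rw [pos_b0 hW, mv_same]
    rw [e1, e2] at h0 h1
    have h2 := M.trAlg.n2_tri (ev W (b, some 0)) (star (x' 0) * ev W (b, none) * x' 0)
      (ev W (b, some 1))
    rw [M.trAlg.n2_sub_comm (ev W (b, some 0)) (star (x' 0) * ev W (b, none) * x' 0)] at h2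
    have h3 : ((b, some 0) : I × Option ℕ) = (b, some 1) :=
      ev_close hW (by linarith)
    simp at h3

end main

/-- The theory of the hyperfinite II_1 factor is not simple. -/
theorem not_simple (R : Str) (hR : R.IsHyperfinite) : ¬ HasSimpleTheory R := by
  intro h
  obtain ⟨R', rfl⟩ := exists_tvn R hR.1
  obtain ⟨V, hV⟩ := ps_of_hyp R' (hyp_of R' hR)
  obtain ⟨M, W, hW⟩ := exists_ps (ℝ × Option ℕ)
  obtain ⟨p, hp, hp0⟩ := exists_type hW
  obtain ⟨A, hA, hs, hd⟩ := h (str M) (isTVN M) (elemEq hW hV) (BB W) 1 1 p hp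
  exact hd (divides hW p hp0 A hA hs)

end Q199.BF
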